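import Pool.Agent.Helper62.Gen.Main

/-!
# Certificates for the pieces, and the chain theorem
-/

namespace Pool.Agent.Helper62.Gen

open Finset

/-- Colours of the points of a chain. -/
def colC (nE K cE cB cR P : ℕ) : Bool :=
  bif Nat.blt P nE then Nat.beq ((cE >>> P) % 2) 1
  else bif Nat.blt P (nE + 56 * K) then Nat.beq ((cB >>> ((P - nE) % 56)) % 2) 1
  else Nat.beq ((cR >>> (P - (nE + 56 * K))) % 2) 1

/-- Membership in the window. -/
def inW (lo hi q : ℕ) : Bool := Nat.ble lo q && Nat.blt q hi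

theorem inW_iff {lo hi q : ℕ} : inW lo hi q = true ↔ lo ≤ q ∧ q < hi := by
  unfold inW
  rw [Bool.and_eq_true, Nat.ble_eq, Nat.blt_eq]

/-- The walk with letters `i, j, …` from `q` stays in the window and its colours alternate. -/
def altB (f : ℕ → ℕ → ℕ) (col : ℕ → Bool) (lo hi : ℕ) : ℕ → ℕ → ℕ → ℕ → Bool
  | 0, _, _, _ => true
  | k + 1, i, j, q => inW lo hi q && force (f i q) fun q' =>
      inW lo hi q' && (xor (col q') (col q) && altB f col lo hi k j i q')

theorem altB_spec {F f : ℕ → ℕ → ℕ} {colF col : ℕ → Bool} {b lo hi : ℕ}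
    (hA : Agr F f b lo hi) (hC : ∀ q, lo ≤ q → q < hi → colF (b + q) = col q) :
    ∀ (k i j q : ℕ), altB f col lo hi k i j q = true → AltN F colF (b + q) i j k := by
  intro k
  induction k with
  | zero => intro i j q _; trivial
  | succ k ih =>
    intro i j q h
    unfold altB at h
    rw [force_eq] at h
    simp only [Bool.and_eq_true] at h
    obtain ⟨h1, h2, h3, h4⟩ := h
    rw [inW_iff] at h1 h2
    refine ⟨?_, ?_⟩
    · rw [hA i q h1.1 h1.2, hC q h1.1 h1.2, hC _ h2.1 h2.2]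
      revert h3
      cases col (f i q) <;> cases col q <;> simp
    · rw [hA i q h1.1 h1.2]
      exact ih j i _ h4

/-- The six alternation checks and `z q ≠ q`. -/
def chk3 (f : ℕ → ℕ → ℕ) (col : ℕ → Bool) (lo hi q : ℕ) : Bool :=
  force q fun q =>
    !Nat.beq (f 2 q) q && (altB f col lo hi 4 0 1 q && (altB f col lo hi 4 1 0 q &&
    (altB f col lo hi 6 1 2 q && (altB f col lo hi 6 2 1 q &&
    (altB f col lo hi 14 0 2 q && altB f col lo hi 14 2 0 q)))))

/-- Good points of the chain. -/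
structure Ok3 (F : ℕ → ℕ → ℕ) (col : ℕ → Bool) (P : ℕ) : Prop where
  mv : F 2 P ≠ P
  a1 : AltN F col P 0 1 4
  a2 : AltN F col P 1 0 4
  a3 : AltN F col P 1 2 6
  a4 : AltN F col P 2 1 6
  a5 : AltN F col P 0 2 14
  a6 : AltN F col P 2 0 14

theorem ok3_of_chk {F f : ℕ → ℕ → ℕ} {colF col : ℕ → Bool} {b lo hi : ℕ}
    (hA : Agr F f b lo hi) (hC : ∀ q, lo ≤ q → q < hi → colF (b + q) = col q)
    {q : ℕ} (h : chk3 f col lo hi q = true) : Ok3 F colF (b + q) := by
  unfold chk3 at h
  rw [force_eq] at h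
  simp only [Bool.and_eq_true] at h
  obtain ⟨h0, h1, h2, h3, h4, h5, h6⟩ := h
  refine ⟨?_, altB_spec hA hC _ _ _ _ h1, altB_spec hA hC _ _ _ _ h2, altB_spec hA hC _ _ _ _ h3,
    altB_spec hA hC _ _ _ _ h4, altB_spec hA hC _ _ _ _ h5, altB_spec hA hC _ _ _ _ h6⟩
  have hq : lo ≤ q ∧ q < hi := by
    unfold altB at h1
    rw [Bool.and_eq_true] at h1
    exact inW_iff.1 h1.1
  rw [hA 2 q hq.1 hq.2]
  intro e
  have e' : f 2 q = q := by omega
  rw [e'] at h0
  revert h0
  rw [Nat.beq_refl]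
  simp

/-- Count of a Boolean predicate on `[0, n)`. -/
def cntB (p : ℕ → Bool) : ℕ → ℕ
  | 0 => 0
  | n + 1 => cntB p n + cond (p n) 1 0

theorem cntB_eq (p : ℕ → Bool) (n : ℕ) : ((range n).filter (fun q => p q = true)).card =
    cntB p n := by
  induction n with
  | zero => simp [cntB]
  | succ n ih =>
    rw [Finset.range_add_one, Finset.filter_insert]
    unfold cntB
    rw [← ih]
    cases h : p n
    · simp
    · rw [if_pos rfl, Finset.card_insert_of_notMem (by simp)]
      rfl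

/-! ### Certificates -/

/-- A left piece. -/
structure EData where
  /-- number of points -/
  nE : ℕ
  /-- table -/
  tE : ℕ
  /-- colours -/
  cE : ℕ
  /-- the cycle of length eleven -/
  S : List ℕ
  /-- first point of the cycle -/
  s0 : ℕ
  /-- the word which moves the cycle off itself, except for one point -/
  gw : List (Fin 3)
  /-- the common point -/
  t : ℕ
  /-- a point with three distinct images -/
  q0 : ℕ

/-- A right piece. -/
structure RData where
  /-- number of points -/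
  nR : ℕ
  /-- table -/
  tR : ℕ
  /-- colours -/
  cR : ℕ

/-- Is `a` in the list? -/
def memB (S : List ℕ) (a : ℕ) : Bool := force a fun a => S.any (Nat.beq a)

theorem memB_iff {S : List ℕ} {a : ℕ} : memB S a = true ↔ a ∈ S := by
  unfold memB
  rw [force_eq]
  exact any_beq S a

/-- Check of the block. -/
def bCheck (tB cB : ℕ) : Bool :=
  allB (fun q => chk1 (stp 0 100 0 tB 0) 56 336 q) 168 56 &&
  (allB (fun q => chk2 (stp 0 100 0 tB 0) 56 336 [] q) 168 56 &&
  allB (fun q => chk3 (stp 0 100 0 tB 0) (colC 0 100 0 cB 0) 56 336 q) 168 56)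

/-- Check of a right piece. -/
def rCheck (tB cB : ℕ) (R : RData) : Bool :=
  allB (fun q => chk1 (stp 0 5 0 tB R.tR) 56 (280 + R.nR) q) 168 (112 + R.nR) &&
  (allB (fun q => chk2 (stp 0 5 0 tB R.tR) 56 (280 + R.nR) [] q) 168 (112 + R.nR) &&
  (allB (fun q => chk3 (stp 0 5 0 tB R.tR) (colC 0 5 0 cB R.cR) 56 (280 + R.nR) q)
    168 (112 + R.nR) &&
  Nat.beq (R.nR % 4) 0))

/-- Step function for the left window. -/
def fE (tB : ℕ) (E : EData) : ℕ → ℕ → ℕ := stp E.nE 100 E.tE tB 0

/-- Colours for the left window. -/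
def kE (cB : ℕ) (E : EData) : ℕ → Bool := colC E.nE 100 E.cE cB 0

/-- Check of a left piece, relations and cycles. -/
def eCheck1 (tB cB : ℕ) (E : EData) : Bool :=
  allB (fun q => chk1 (fE tB E) 0 (E.nE + 280) q) 0 (E.nE + 168) &&
  (allB (fun q => chk2 (fE tB E) 0 (E.nE + 280) E.S q) 0 (E.nE + 168) &&
  allB (fun q => chk3 (fE tB E) (kE cB E) 0 (E.nE + 280) q) E.nE 168)

/-- Check of a left piece, the cycle. -/
def eCheck2 (tB : ℕ) (E : EData) : Bool :=
  E.S.all (fun s => Nat.blt s E.nE) && (memB E.S E.s0 && (memB E.S E.t &&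
  (E.S.all (fun s => memB E.S (orun (fE tB E) 0 (E.nE + 280) wW s) &&
    !Nat.beq (orun (fE tB E) 0 (E.nE + 280) wW s) s) &&
  (E.S.any (fun s => memB E.S (fE tB E 0 s)) && (E.S.any (fun s => memB E.S (fE tB E 1 s)) &&
  (E.S.all (fun s => Nat.blt (orun (fE tB E) 0 (E.nE + 280) (E.gw.map Fin.val) s) (E.nE + 280) &&
    (!memB E.S (orun (fE tB E) 0 (E.nE + 280) (E.gw.map Fin.val) s) ||
      Nat.beq (orun (fE tB E) 0 (E.nE + 280) (E.gw.map Fin.val) s) E.t)) &&
  E.S.any (fun s => Nat.beq (orun (fE tB E) 0 (E.nE + 280) (E.gw.map Fin.val) s) E.t)))))))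

/-- Is a point bad for one of the two walks? -/
def badB (tB cB : ℕ) (E : EData) (k i j q : ℕ) : Bool :=
  !(altB (fE tB E) (kE cB E) 0 (E.nE + 280) k i j q &&
    altB (fE tB E) (kE cB E) 0 (E.nE + 280) k j i q)

/-- Check of a left piece, counts. -/
def eCheck3 (tB cB : ℕ) (E : EData) : Bool :=
  Nat.beq (cntB (fun q => !Nat.beq (fE tB E 2 q) q) E.nE % 4) 0 &&
  (Nat.ble (21 * cntB (badB tB cB E 4 0 1) E.nE + 14 * cntB (badB tB cB E 6 1 2) E.nE +
    6 * cntB (badB tB cB E 14 0 2) E.nE) 567 &&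
  (Nat.blt E.q0 E.nE && (!Nat.beq (fE tB E 0 E.q0) E.q0 && (!Nat.beq (fE tB E 1 E.q0) E.q0 &&
  (!Nat.beq (fE tB E 2 E.q0) E.q0 && (!Nat.beq (fE tB E 0 E.q0) (fE tB E 1 E.q0) &&
  (!Nat.beq (fE tB E 0 E.q0) (fE tB E 2 E.q0) &&
  !Nat.beq (fE tB E 1 E.q0) (fE tB E 2 E.q0))))))))

/-- The cycle, as a list of iterates. -/
def eCheck4 (tB : ℕ) (E : EData) : Prop :=
  E.S = List.iterate (orun (fE tB E) 0 (E.nE + 280) wW) E.s0 11

section Chain

variable {tB cB K : ℕ} {E : EData} {R : RData}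

/-- The step function of the chain. -/
def FF (tB K : ℕ) (E : EData) (R : RData) : ℕ → ℕ → ℕ := stp E.nE K E.tE tB R.tR

/-- The colours of the chain. -/
def CC (cB K : ℕ) (E : EData) (R : RData) : ℕ → Bool := colC E.nE K E.cE cB R.cR

/-- Induction over the regions of the chain. -/
theorem region (hK : 5 ≤ K) (Q : ℕ → Prop)
    (h1 : ∀ q < E.nE + 168, Q (0 + q))
    (h2 : ∀ j, 3 ≤ j → j + 3 ≤ K → ∀ q, 168 ≤ q → q < 168 + 56 → Q (E.nE + 56 * (j - 3) + q))
    (h3 : ∀ q, 168 ≤ q → q < 168 + (112 + R.nR) → Q (E.nE + 56 * (K - 5) + q)) :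
    ∀ P < E.nE + 56 * K + R.nR, Q P := by
  intro P hP
  rcases Nat.lt_or_ge P (E.nE + 168) with h | h
  · have := h1 P h
    rwa [zero_add] at this
  · rcases Nat.lt_or_ge P (E.nE + 56 * (K - 2)) with h' | h'
    · have h4 := Nat.div_add_mod (P - E.nE) 56
      have h5 := Nat.mod_lt (P - E.nE) (show 56 > 0 by norm_num)
      have h6 : 3 ≤ (P - E.nE) / 56 := by rw [Nat.le_div_iff_mul_le (by norm_num)]; omega
      have h7 : (P - E.nE) / 56 < K - 2 := by
        rw [Nat.div_lt_iff_lt_mul (by norm_num)]; omega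
      have := h2 ((P - E.nE) / 56) h6 (by omega) (168 + (P - E.nE) % 56) (by omega) (by omega)
      have h8 : E.nE + 56 * ((P - E.nE) / 56 - 3) + (168 + (P - E.nE) % 56) = P := by omega
      rwa [h8] at this
    · have := h3 (P - (E.nE + 56 * (K - 5))) (by omega) (by omega)
      have h8 : E.nE + 56 * (K - 5) + (P - (E.nE + 56 * (K - 5))) = P := by omega
      rwa [h8] at this

theorem col_left (hK : 5 ≤ K) (q : ℕ) (_ : 0 ≤ q) (hq : q < E.nE + 280) :
    CC cB K E R (0 + q) = kE cB E q := by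
  rw [zero_add]
  unfold CC kE colC
  cases h1 : Nat.blt q E.nE
  · have h2 : Nat.blt q (E.nE + 56 * K) = true := by rw [Nat.blt_eq]; omega
    have h3 : Nat.blt q (E.nE + 56 * 100) = true := by rw [Nat.blt_eq]; omega
    rw [h2, h3]
    simp only [cond_true, cond_false]
  · simp only [cond_true]

theorem col_bulk (j : ℕ) (hj : 3 ≤ j) (hjK : j + 3 ≤ K) (q : ℕ) (hlo : 56 ≤ q) (hq : q < 336) :
    CC cB K E R (E.nE + 56 * (j - 3) + q) = colC 0 100 0 cB 0 q := by
  unfold CC colC
  have h1 : Nat.blt (E.nE + 56 * (j - 3) + q) E.nE = false := by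
    rw [Bool.eq_false_iff]; intro h; rw [Nat.blt_eq] at h; omega
  have h2 : Nat.blt (E.nE + 56 * (j - 3) + q) (E.nE + 56 * K) = true := by rw [Nat.blt_eq]; omega
  have h3 : Nat.blt q 0 = false := by
    rw [Bool.eq_false_iff]; intro h; rw [Nat.blt_eq] at h; omega
  have h4 : Nat.blt q (0 + 56 * 100) = true := by rw [Nat.blt_eq]; omega
  rw [h1, h2, h3, h4]
  simp only [cond_false, cond_true, Nat.sub_zero]
  have h5 : (E.nE + 56 * (j - 3) + q - E.nE) % 56 = q % 56 := by
    rw [show E.nE + 56 * (j - 3) + q - E.nE = q + 56 * (j - 3) by omega,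
      Nat.add_mul_mod_self_left]
  rw [h5]

theorem col_right (hK : 5 ≤ K) (q : ℕ) (hlo : 56 ≤ q) (_ : q < 280 + R.nR) :
    CC cB K E R (E.nE + 56 * (K - 5) + q) = colC 0 5 0 cB R.cR q := by
  unfold CC colC
  have h1 : Nat.blt (E.nE + 56 * (K - 5) + q) E.nE = false := by
    rw [Bool.eq_false_iff]; intro h; rw [Nat.blt_eq] at h; omega
  have h3 : Nat.blt q 0 = false := by
    rw [Bool.eq_false_iff]; intro h; rw [Nat.blt_eq] at h; omega
  rw [h1, h3]
  simp only [cond_false]
  rcases Nat.lt_or_ge q 280 with h | h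
  · have h2 : Nat.blt (E.nE + 56 * (K - 5) + q) (E.nE + 56 * K) = true := by
      rw [Nat.blt_eq]; omega
    have h4 : Nat.blt q (0 + 56 * 5) = true := by rw [Nat.blt_eq]; omega
    rw [h2, h4]
    simp only [cond_true, Nat.sub_zero]
    have h5 : (E.nE + 56 * (K - 5) + q - E.nE) % 56 = q % 56 := by
      rw [show E.nE + 56 * (K - 5) + q - E.nE = q + 56 * (K - 5) by omega,
        Nat.add_mul_mod_self_left]
    rw [h5]
  · have h2 : Nat.blt (E.nE + 56 * (K - 5) + q) (E.nE + 56 * K) = false := by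
      rw [Bool.eq_false_iff]; intro h; rw [Nat.blt_eq] at h; omega
    have h4 : Nat.blt q (0 + 56 * 5) = false := by
      rw [Bool.eq_false_iff]; intro h; rw [Nat.blt_eq] at h; omega
    rw [h2, h4]
    simp only [cond_false]
    have h5 : E.nE + 56 * (K - 5) + q - (E.nE + 56 * K) = q - (0 + 56 * 5) := by omega
    rw [h5]

open Classical in
/-- The bound for all chains `E, B, …, B, R` with at least five blocks. -/
theorem chi_of_chain (hK : 5 ≤ K) (hB : bCheck tB cB = true) (hR : rCheck tB cB R = true)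
    (hE1 : eCheck1 tB cB E = true) (hE2 : eCheck2 tB E = true) (hE3 : eCheck3 tB cB E = true)
    (hE4 : eCheck4 tB E) :
    -(Nat.card (alternatingGroup (Fin (E.nE + 56 * K + R.nR))) : ℝ) / 84
      - 27 / 4 * (Nat.card (alternatingGroup (Fin (E.nE + 56 * K + R.nR))) : ℝ) /
        ((E.nE + 56 * K + R.nR : ℕ) : ℝ)
      ≤ (chi (alternatingGroup (Fin (E.nE + 56 * K + R.nR))) : ℝ) := by
  set n := E.nE + 56 * K + R.nR with hn
  unfold bCheck at hB
  unfold rCheck at hR
  unfold eCheck1 at hE1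
  unfold eCheck2 at hE2
  unfold eCheck3 at hE3
  simp only [Bool.and_eq_true] at hB hR hE1 hE2 hE3
  obtain ⟨hB1, hB2, hB3⟩ := hB
  obtain ⟨hR1, hR2, hR3, hR4⟩ := hR
  obtain ⟨hL1, hL2, hL3⟩ := hE1
  obtain ⟨hS1, hS2, hS3, hS4, hS5, hS6, hS7, hS8⟩ := hE2
  obtain ⟨hN1, hN2, hN3, d0, d1, d2, d01, d02, d12⟩ := hE3
  have aL : Agr (FF tB K E R) (fE tB E) 0 0 (E.nE + 280) := agr_left E.nE K E.tE tB R.tR hK
  have aB : ∀ j, 3 ≤ j → j + 3 ≤ K → Agr (FF tB K E R) (stp 0 100 0 tB 0)
      (E.nE + 56 * (j - 3)) 56 336 := fun j h h' => agr_bulk E.nE K E.tE tB R.tR j h h'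
  have aR : Agr (FF tB K E R) (stp 0 5 0 tB R.tR) (E.nE + 56 * (K - 5)) 56 (280 + R.nR) :=
    agr_right E.nE K E.tE tB R.tR R.nR hK
  have hOk : ∀ P < n, Ok1 (FF tB K E R) n P := by
    apply region hK
    · intro q hq
      exact ok1_of_chk aL (by omega) (by omega) (fun _ => rfl)
        (allB_spec hL1 q (Nat.zero_le _) (by omega))
    · intro j hj hjK q hq1 hq2
      exact ok1_of_chk (aB j hj hjK) (by omega) (by omega) (by omega)
        (allB_spec hB1 q hq1 hq2)
    · intro q hq1 hq2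
      exact ok1_of_chk aR (by omega) (by omega) (by omega) (allB_spec hR1 q hq1 hq2)
  have hSlt : ∀ s ∈ E.S, s < E.nE := by
    intro s hs
    rw [List.all_eq_true] at hS1
    have := hS1 s hs
    rwa [Nat.blt_eq] at this
  have hper : ∀ P < n, ∃ l, 0 < l ∧ (run (FF tB K E R) wW)^[l] P = P ∧
      ((P ∈ E.S → l = 11) ∧ (P ∉ E.S → LL % l = 0)) := by
    apply region hK
    · intro q hq
      rw [zero_add]
      have := per_of_chk aL (by omega) (allB_spec hL2 q (Nat.zero_le _) (by omega))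
      rwa [zero_add] at this
    · intro j hj hjK q hq1 hq2
      obtain ⟨l, h1, h2, _, h3⟩ := per_of_chk (aB j hj hjK) (by omega) (allB_spec hB2 q hq1 hq2)
      refine ⟨l, h1, h2, fun h => ?_, fun _ => h3 (by simp)⟩
      have := hSlt _ h
      omega
    · intro q hq1 hq2
      obtain ⟨l, h1, h2, _, h3⟩ := per_of_chk aR (by omega) (allB_spec hR2 q hq1 hq2)
      refine ⟨l, h1, h2, fun h => ?_, fun _ => h3 (by simp)⟩
      have := hSlt _ h
      omega
  have hOk3 : ∀ P < n, E.nE ≤ P → Ok3 (FF tB K E R) (CC cB K E R) P := by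
    apply region hK
    · intro q hq h
      exact ok3_of_chk aL (col_left hK) (allB_spec hL3 q (by omega) (by omega))
    · intro j hj hjK q hq1 hq2 _
      exact ok3_of_chk (aB j hj hjK) (col_bulk j hj hjK) (allB_spec hB3 q hq1 hq2)
    · intro q hq1 hq2 _
      exact ok3_of_chk aR (col_right hK) (allB_spec hR3 q hq1 hq2)
  -- values of the step function and of words on the left window
  have hF : ∀ g q, q < E.nE + 280 → FF tB K E R g q = fE tB E g q := by
    intro g q hq
    have := aL g q (Nat.zero_le _) hq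
    rwa [zero_add, zero_add] at this
  have hrun : ∀ w q, orun (fE tB E) 0 (E.nE + 280) w q < E.nE + 280 →
      run (FF tB K E R) w q = orun (fE tB E) 0 (E.nE + 280) w q := by
    intro w q h
    have := (orun_spec aL w q h).2.2
    rwa [zero_add, zero_add] at this
  rw [memB_iff] at hS2 hS3
  rw [List.all_eq_true] at hS4 hS7
  rw [List.any_eq_true] at hS5 hS6 hS8
  have hWS : ∀ s ∈ E.S, run (FF tB K E R) wW s ∈ E.S ∧ run (FF tB K E R) wW s ≠ s := by
    intro s hs
    have h1 := hS4 s hs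
    rw [Bool.and_eq_true, memB_iff] at h1
    have h2 := hSlt _ h1.1
    rw [hrun wW s (by omega)]
    refine ⟨h1.1, fun e => ?_⟩
    have h3 := h1.2
    rw [e] at h3
    revert h3
    rw [Nat.beq_refl]
    simp
  have hWeq : ∀ s ∈ E.S, run (FF tB K E R) wW s = orun (fE tB E) 0 (E.nE + 280) wW s := by
    intro s hs
    have h1 := hS4 s hs
    rw [Bool.and_eq_true, memB_iff] at h1
    have h2 := hSlt _ h1.1
    exact hrun wW s (by omega)
  refine chi_of_step hOk (CC cB K E R) E.S hper (fun s hs => by have := hSlt s hs; omega) E.s0 hS2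
    ?_ hWS ?_ ?_ E.gw E.t hS3 ?_ ?_ ?_ ?_ ?_
  · -- every point of `S` is an iterate
    intro s hs
    unfold eCheck4 at hE4
    rw [hE4, List.mem_iterate] at hs
    obtain ⟨m, _, hm⟩ := hs
    have h1 : ∀ k, (run (FF tB K E R) wW)^[k] E.s0 =
        (orun (fE tB E) 0 (E.nE + 280) wW)^[k] E.s0 ∧
        (orun (fE tB E) 0 (E.nE + 280) wW)^[k] E.s0 ∈ E.S := by
      intro k
      induction k with
      | zero => exact ⟨rfl, hS2⟩
      | succ k ih =>
        rw [Function.iterate_succ_apply', Function.iterate_succ_apply', ih.1]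
        refine ⟨hWeq _ ih.2, ?_⟩
        rw [← hWeq _ ih.2]
        exact (hWS _ ih.2).1
    exact ⟨m, (h1 m).1.trans hm.symm⟩
  · obtain ⟨s, hs, h⟩ := hS5
    rw [memB_iff] at h
    exact ⟨s, hs, by rw [hF 0 s (by have := hSlt s hs; omega)]; exact h⟩
  · obtain ⟨s, hs, h⟩ := hS6
    rw [memB_iff] at h
    exact ⟨s, hs, by rw [hF 1 s (by have := hSlt s hs; omega)]; exact h⟩
  · obtain ⟨s, hs, h⟩ := hS8
    rw [Nat.beq_eq] at h
    refine ⟨s, hs, ?_⟩
    rw [hrun _ s (by rw [h]; have := hSlt _ hS3; omega), h]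
  · intro s hs h
    have h1 := hS7 s hs
    rw [Bool.and_eq_true, Nat.blt_eq, Bool.or_eq_true] at h1
    rw [hrun _ s h1.1] at h ⊢
    rcases h1.2 with h2 | h2
    · exfalso
      rw [Bool.not_eq_true', Bool.eq_false_iff] at h2
      exact h2 (memB_iff.2 h)
    · rwa [Nat.beq_eq] at h2
  · -- distinct images
    rw [Nat.blt_eq] at hN3
    have nb : ∀ a b : ℕ, (!Nat.beq a b) = true → a ≠ b := by
      intro a b h e
      rw [e, Nat.beq_refl] at h
      simp at h
    refine ⟨E.q0, by omega, ?_⟩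
    rw [hF 0 _ (by omega), hF 1 _ (by omega), hF 2 _ (by omega)]
    exact ⟨nb _ _ d0, nb _ _ d1, nb _ _ d2, nb _ _ d01, nb _ _ d02, nb _ _ d12⟩
  · -- parity
    have hsplit : (range n).filter (fun q => FF tB K E R 2 q ≠ q) =
        (range E.nE).filter (fun q => (!Nat.beq (fE tB E 2 q) q) = true) ∪ Finset.Ico E.nE n := by
      ext q
      simp only [Finset.mem_filter, Finset.mem_range, Finset.mem_union, Finset.mem_Ico]
      constructor
      · rintro ⟨h1, h2⟩
        rcases Nat.lt_or_ge q E.nE with h | h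
        · left
          refine ⟨h, ?_⟩
          rw [hF 2 q (by omega)] at h2
          rw [Bool.not_eq_true', Bool.eq_false_iff]
          intro h3
          rw [Nat.beq_eq] at h3
          exact h2 h3
        · exact Or.inr ⟨h, h1⟩
      · rintro (⟨h1, h2⟩ | ⟨h1, h2⟩)
        · refine ⟨by omega, ?_⟩
          rw [hF 2 q (by omega)]
          intro e
          rw [e, Nat.beq_refl] at h2
          simp at h2
        · exact ⟨h2, (hOk3 q h2 h1).mv⟩
    rw [hsplit, Finset.card_union_of_disjoint, cntB_eq, Nat.card_Ico]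
    · rw [Nat.beq_eq] at hN1 hR4
      omega
    · rw [Finset.disjoint_left]
      intro q h1 h2
      rw [Finset.mem_filter, Finset.mem_range] at h1
      rw [Finset.mem_Ico] at h2
      omega
  · -- bad points
    rw [Nat.ble_eq] at hN2
    have hbad : ∀ k i j : ℕ, (∀ P < n, E.nE ≤ P → AltN (FF tB K E R) (CC cB K E R) P i j k ∧
        AltN (FF tB K E R) (CC cB K E R) P j i k) →
        ((range n).filter (fun P => ¬ (AltN (FF tB K E R) (CC cB K E R) P i j k ∧
          AltN (FF tB K E R) (CC cB K E R) P j i k))).card ≤ cntB (badB tB cB E k i j) E.nE := by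
      intro k i j h
      rw [← cntB_eq]
      apply Finset.card_le_card
      intro P hP
      rw [Finset.mem_filter, Finset.mem_range] at hP ⊢
      have h1 : P < E.nE := by
        by_contra h2
        exact hP.2 (h P hP.1 (by omega))
      refine ⟨h1, ?_⟩
      by_contra h2
      apply hP.2
      unfold badB at h2
      rw [Bool.not_eq_true', Bool.not_eq_false, Bool.and_eq_true] at h2
      have h3 := altB_spec aL (colF := CC cB K E R) (col_left hK) _ _ _ _ h2.1
      have h4 := altB_spec aL (colF := CC cB K E R) (col_left hK) _ _ _ _ h2.2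
      rw [zero_add] at h3 h4
      exact ⟨h3, h4⟩
    have b1 := hbad 4 0 1 (fun P h h' => ⟨(hOk3 P h h').a1, (hOk3 P h h').a2⟩)
    have b2 := hbad 6 1 2 (fun P h h' => ⟨(hOk3 P h h').a3, (hOk3 P h h').a4⟩)
    have b3 := hbad 14 0 2 (fun P h h' => ⟨(hOk3 P h h').a5, (hOk3 P h h').a6⟩)
    omega

end Chain

end Pool.Agent.Helper62.Gen
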