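import Pool.Agent.Helper62.Gen.Run

/-!
# Local windows of a chain of pieces
-/

namespace Pool.Agent.Helper62.Gen

/-- The word `x y z x z`. -/
def wW : List ℕ := [0, 1, 2, 0, 2]

/-- The exponent: `1` modulo `11` and divisible by all other cycle lengths of the word. -/
def LL : ℕ := 88084356562238400

/-- `F` agrees with `f`, shifted by `b`, on `[lo, hi)`. -/
def Agr (F f : ℕ → ℕ → ℕ) (b lo hi : ℕ) : Prop :=
  ∀ g q, lo ≤ q → q < hi → F g (b + q) = b + f g q

section Local

variable {F f : ℕ → ℕ → ℕ} {b lo hi : ℕ}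

theorem orun_spec (hA : Agr F f b lo hi) : ∀ (w : List ℕ) (q : ℕ), orun f lo hi w q < hi →
    lo ≤ q ∧ q < hi ∧ run F w (b + q) = b + orun f lo hi w q := by
  intro w
  induction w with
  | nil =>
    intro q h
    unfold orun at h ⊢
    cases hc : (Nat.ble lo q && Nat.blt q hi)
    · rw [hc] at h; simp at h
    · rw [Bool.and_eq_true, Nat.ble_eq, Nat.blt_eq] at hc
      exact ⟨hc.1, hc.2, rfl⟩
  | cons g w ih =>
    intro q h
    unfold orun at h ⊢
    cases hc : (Nat.ble lo q && Nat.blt q hi)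
    · rw [hc] at h; simp at h
    · rw [hc] at h
      rw [Bool.and_eq_true, Nat.ble_eq, Nat.blt_eq] at hc
      simp only [cond_true, force_eq] at h ⊢
      obtain ⟨h1, h2, h3⟩ := ih _ h
      refine ⟨hc.1, hc.2, ?_⟩
      rw [← h3]
      simp only [run]
      rw [hA g q hc.1 hc.2]

theorem orun_beq (hA : Agr F f b lo hi) {w : List ℕ} {q t : ℕ} (ht : t < hi)
    (h : Nat.beq (orun f lo hi w q) t = true) :
    lo ≤ q ∧ q < hi ∧ run F w (b + q) = b + t := by
  rw [Nat.beq_eq] at h
  have := orun_spec hA w q (by rw [h]; exact ht)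
  rwa [h] at this

theorem cyc_spec (hA : Agr F f b lo hi) (w : List ℕ) (q0 : ℕ) (hq0 : q0 < hi) :
    ∀ (fuel k q : ℕ), cyc f lo hi w q0 fuel k q ≠ 0 → q < hi ∧ ∃ m, 0 < m ∧
      cyc f lo hi w q0 fuel k q = k + m ∧ (run F w)^[m] (b + q) = b + q0 := by
  intro fuel
  induction fuel with
  | zero => intro k q h; exact absurd rfl h
  | succ fuel ih =>
    intro k q h
    unfold cyc at h ⊢
    rw [force_eq] at h ⊢
    cases hc : Nat.beq (orun f lo hi w q) q0
    · rw [hc] at h
      simp only [cond_false] at h ⊢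
      obtain ⟨h1, m, h2, h3, h4⟩ := ih _ _ h
      obtain ⟨h5, h6, h7⟩ := orun_spec hA w q h1
      refine ⟨h6, m + 1, by omega, by rw [h3]; ring, ?_⟩
      rw [Function.iterate_succ_apply, h7, h4]
    · simp only [cond_true]
      obtain ⟨h5, h6, h7⟩ := orun_beq hA hq0 hc
      exact ⟨h6, 1, one_pos, rfl, h7⟩

/-- Relations, connectedness at `q`. -/
def chk1 (f : ℕ → ℕ → ℕ) (lo hi q : ℕ) : Bool :=
  force q fun q =>
    Nat.beq (orun f lo hi [0, 0] q) q && (Nat.beq (orun f lo hi [1, 1] q) q &&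
    (Nat.beq (orun f lo hi [2, 2] q) q && (Nat.beq (orun f lo hi [0, 1, 0, 1] q) q &&
    (Nat.beq (orun f lo hi [1, 2, 1, 2, 1, 2] q) q &&
    (Nat.beq (orun f lo hi [0, 2, 0, 2, 0, 2, 0, 2, 0, 2, 0, 2, 0, 2] q) q &&
    (Nat.beq q 0 || (Nat.blt (f 0 q) q || (Nat.blt (f 1 q) q || Nat.blt (f 2 q) q))))))))

/-- The cycle of the word `wW` through `q`. -/
def chk2 (f : ℕ → ℕ → ℕ) (lo hi : ℕ) (S : List ℕ) (q : ℕ) : Bool :=
  force q fun q =>
    force (cyc f lo hi wW q 120 0 q) fun l =>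
      bif S.any (Nat.beq q) then Nat.beq l 11 else (Nat.blt 0 l && Nat.beq (LL % l) 0)

/-- What the first check gives, for the global step function. -/
structure Ok1 (F : ℕ → ℕ → ℕ) (n P : ℕ) : Prop where
  lt : ∀ g < 3, F g P < n
  inv : ∀ g < 3, F g (F g P) = P
  xy : run F [0, 1, 0, 1] P = P
  yz : run F [1, 2, 1, 2, 1, 2] P = P
  xz : run F [0, 2, 0, 2, 0, 2, 0, 2, 0, 2, 0, 2, 0, 2] P = P
  down : P = 0 ∨ ∃ g < 3, F g P < P

theorem orun_mid {w : List ℕ} {g q : ℕ} (h : orun f lo hi (g :: w) q < hi) : f g q < hi := by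
  by_contra h1
  unfold orun at h
  cases hc : (Nat.ble lo q && Nat.blt q hi)
  · rw [hc] at h; simp at h
  · rw [hc] at h
    simp only [cond_true, force_eq] at h
    have h2 : (Nat.ble lo (f g q) && Nat.blt (f g q) hi) = false := by
      rw [Bool.and_eq_false_iff]
      right
      rw [Bool.eq_false_iff]
      intro h3
      rw [Nat.blt_eq] at h3
      exact h1 h3
    cases w with
    | nil => unfold orun at h; rw [h2] at h; simp at h
    | cons g' w => unfold orun at h; rw [h2] at h; simp at h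

theorem ok1_of_chk {n q : ℕ} (hA : Agr F f b lo hi) (hn : b + hi ≤ n) (hq : q < hi)
    (hb : q = 0 → b = 0) (h : chk1 f lo hi q = true) : Ok1 F n (b + q) := by
  unfold chk1 at h
  rw [force_eq] at h
  simp only [Bool.and_eq_true, Bool.or_eq_true] at h
  obtain ⟨h0, h1, h2, h3, h4, h5, h6⟩ := h
  have key : ∀ g, Nat.beq (orun f lo hi [g, g] q) q = true →
      F g (b + q) < n ∧ F g (F g (b + q)) = b + q := by
    intro g hg
    obtain ⟨e1, e2, e3⟩ := orun_beq hA hq hg
    have hmid : f g q < hi := orun_mid (w := [g]) (by rw [Nat.beq_eq] at hg; rw [hg]; exact hq)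
    refine ⟨?_, e3⟩
    rw [hA g q e1 e2]
    omega
  obtain ⟨lo_le, _, _⟩ := orun_beq hA hq h0
  constructor
  · intro g hg
    interval_cases g
    · exact (key 0 h0).1
    · exact (key 1 h1).1
    · exact (key 2 h2).1
  · intro g hg
    interval_cases g
    · exact (key 0 h0).2
    · exact (key 1 h1).2
    · exact (key 2 h2).2
  · exact (orun_beq hA hq h3).2.2
  · exact (orun_beq hA hq h4).2.2
  · exact (orun_beq hA hq h5).2.2
  · rcases h6 with h6 | h6 | h6 | h6
    · left
      rw [Nat.beq_eq] at h6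
      rw [h6, hb h6]
    · right
      rw [Nat.blt_eq] at h6
      exact ⟨0, by norm_num, by rw [hA 0 q lo_le hq]; omega⟩
    · right
      rw [Nat.blt_eq] at h6
      exact ⟨1, by norm_num, by rw [hA 1 q lo_le hq]; omega⟩
    · right
      rw [Nat.blt_eq] at h6
      exact ⟨2, by norm_num, by rw [hA 2 q lo_le hq]; omega⟩

theorem any_beq (S : List ℕ) (q : ℕ) : S.any (Nat.beq q) = true ↔ q ∈ S := by
  rw [List.any_eq_true]
  constructor
  · rintro ⟨x, hx, h⟩
    rw [Nat.beq_eq] at h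
    rwa [h]
  · intro h
    exact ⟨q, h, by rw [Nat.beq_eq]⟩

theorem per_of_chk {S : List ℕ} {q : ℕ} (hA : Agr F f b lo hi) (hq : q < hi)
    (h : chk2 f lo hi S q = true) :
    ∃ l, 0 < l ∧ (run F wW)^[l] (b + q) = b + q ∧
      ((q ∈ S → l = 11) ∧ (q ∉ S → LL % l = 0)) := by
  unfold chk2 at h
  rw [force_eq, force_eq] at h
  by_cases hS : q ∈ S
  · rw [(any_beq S q).2 hS, cond_true, Nat.beq_eq] at h
    obtain ⟨_, m, hm, h1, h2⟩ := cyc_spec hA wW q hq 120 0 q (by rw [h]; norm_num)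
    refine ⟨m, hm, h2, fun _ => by omega, fun h3 => absurd hS h3⟩
  · have h3 : S.any (Nat.beq q) = false := by
      rw [Bool.eq_false_iff]; intro h4; exact hS ((any_beq S q).1 h4)
    rw [h3, cond_false, Bool.and_eq_true, Nat.blt_eq, Nat.beq_eq] at h
    obtain ⟨_, m, hm, h1, h2⟩ := cyc_spec hA wW q hq 120 0 q (by omega)
    refine ⟨m, hm, h2, fun h4 => absurd h4 hS, fun _ => ?_⟩
    rw [h1, zero_add] at h
    exact h.2

end Local

theorem allB_spec {p : ℕ → Bool} {a : ℕ} : ∀ {n : ℕ}, allB p a n = true →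
    ∀ i, a ≤ i → i < a + n → p i = true := by
  intro n
  induction n with
  | zero => intro _ i h1 h2; omega
  | succ n ih =>
    intro h i h1 h2
    unfold allB at h
    rw [Bool.and_eq_true] at h
    rcases Nat.lt_or_ge i (a + n) with h3 | h3
    · exact ih h.2 i h1 h3
    · have : i = a + n := by omega
      rw [this]; exact h.1

/-! ### Agreement of the step functions -/

variable (nE K tE tB tR : ℕ)

theorem agr_left (hK : 5 ≤ K) :
    Agr (stp nE K tE tB tR) (stp nE 100 tE tB 0) 0 0 (nE + 280) := by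
  intro g q _ hq
  rw [zero_add, zero_add]
  unfold stp
  cases h1 : Nat.blt q nE
  · have h2 : Nat.blt q (nE + 56 * K) = true := by rw [Nat.blt_eq]; omega
    have h3 : Nat.blt q (nE + 56 * 100) = true := by rw [Nat.blt_eq]; omega
    rw [h2, h3]
    simp only [cond_true, cond_false]
  · simp only [cond_true]

theorem agr_bulk (j : ℕ) (hj : 3 ≤ j) (hjK : j + 3 ≤ K) :
    Agr (stp nE K tE tB tR) (stp 0 100 0 tB 0) (nE + 56 * (j - 3)) 56 336 := by
  intro g q hlo hq
  unfold stp
  have h1 : Nat.blt (nE + 56 * (j - 3) + q) nE = false := by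
    rw [Bool.eq_false_iff]; intro h; rw [Nat.blt_eq] at h; omega
  have h2 : Nat.blt (nE + 56 * (j - 3) + q) (nE + 56 * K) = true := by rw [Nat.blt_eq]; omega
  have h3 : Nat.blt q 0 = false := by
    rw [Bool.eq_false_iff]; intro h; rw [Nat.blt_eq] at h; omega
  have h4 : Nat.blt q (0 + 56 * 100) = true := by rw [Nat.blt_eq]; omega
  rw [h1, h2, h3, h4]
  simp only [cond_false, cond_true, Nat.sub_zero]
  have h5 : (nE + 56 * (j - 3) + q - nE) % 56 = q % 56 := by
    rw [show nE + 56 * (j - 3) + q - nE = q + 56 * (j - 3) by omega, Nat.add_mul_mod_self_left]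
  rw [h5]
  have h6 := Nat.div_add_mod q 56
  have h7 : 1 ≤ q / 56 := by rw [Nat.le_div_iff_mul_le (by norm_num)]; omega
  omega

theorem agr_right (nR : ℕ) (hK : 5 ≤ K) :
    Agr (stp nE K tE tB tR) (stp 0 5 0 tB tR) (nE + 56 * (K - 5)) 56 (280 + nR) := by
  intro g q hlo hq
  unfold stp
  have h1 : Nat.blt (nE + 56 * (K - 5) + q) nE = false := by
    rw [Bool.eq_false_iff]; intro h; rw [Nat.blt_eq] at h; omega
  have h3 : Nat.blt q 0 = false := by
    rw [Bool.eq_false_iff]; intro h; rw [Nat.blt_eq] at h; omega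
  rw [h1, h3]
  simp only [cond_false]
  rcases Nat.lt_or_ge q 280 with h | h
  · have h2 : Nat.blt (nE + 56 * (K - 5) + q) (nE + 56 * K) = true := by rw [Nat.blt_eq]; omega
    have h4 : Nat.blt q (0 + 56 * 5) = true := by rw [Nat.blt_eq]; omega
    rw [h2, h4]
    simp only [cond_true, Nat.sub_zero]
    have h5 : (nE + 56 * (K - 5) + q - nE) % 56 = q % 56 := by
      rw [show nE + 56 * (K - 5) + q - nE = q + 56 * (K - 5) by omega, Nat.add_mul_mod_self_left]
    rw [h5]
    have h6 := Nat.div_add_mod q 56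
    have h7 : 1 ≤ q / 56 := by rw [Nat.le_div_iff_mul_le (by norm_num)]; omega
    omega
  · have h2 : Nat.blt (nE + 56 * (K - 5) + q) (nE + 56 * K) = false := by
      rw [Bool.eq_false_iff]; intro h; rw [Nat.blt_eq] at h; omega
    have h4 : Nat.blt q (0 + 56 * 5) = false := by
      rw [Bool.eq_false_iff]; intro h; rw [Nat.blt_eq] at h; omega
    rw [h2, h4]
    simp only [cond_false]
    have h5 : nE + 56 * (K - 5) + q - (nE + 56 * K) = q - (0 + 56 * 5) := by omega
    rw [h5]
    omega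

end Pool.Agent.Helper62.Gen
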