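import Pool.Agent.Helper62.Gen.Data

/-!
# Kernel checks of the left pieces and of the block
-/

namespace Pool.Agent.Helper62.Gen

set_option maxRecDepth 1000000

theorem bCheck_ok : bCheck tB cB = true := by decide +kernel

theorem E0_1 : eCheck1 tB cB E0 = true := by decide +kernel

theorem E0_2 : eCheck2 tB E0 = true := by decide +kernel

theorem E0_3 : eCheck3 tB cB E0 = true := by decide +kernel

theorem E0_4 : eCheck4 tB E0 := by unfold eCheck4; decide +kernel

theorem E1_1 : eCheck1 tB cB E1 = true := by decide +kernel

theorem E1_2 : eCheck2 tB E1 = true := by decide +kernel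

theorem E1_3 : eCheck3 tB cB E1 = true := by decide +kernel

theorem E1_4 : eCheck4 tB E1 := by unfold eCheck4; decide +kernel

theorem E2_1 : eCheck1 tB cB E2 = true := by decide +kernel

theorem E2_2 : eCheck2 tB E2 = true := by decide +kernel

theorem E2_3 : eCheck3 tB cB E2 = true := by decide +kernel

theorem E2_4 : eCheck4 tB E2 := by unfold eCheck4; decide +kernel

theorem E3_1 : eCheck1 tB cB E3 = true := by decide +kernel

theorem E3_2 : eCheck2 tB E3 = true := by decide +kernel

theorem E3_3 : eCheck3 tB cB E3 = true := by decide +kernel

theorem E3_4 : eCheck4 tB E3 := by unfold eCheck4; decide +kernel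

end Pool.Agent.Helper62.Gen
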