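import Pool.Agent.Helper62.Gen.Data

/-!
# Kernel checks of the right pieces
-/

namespace Pool.Agent.Helper62.Gen

set_option maxRecDepth 1000000

theorem R0_ok : rCheck tB cB R0 = true := by decide +kernel

theorem R1_ok : rCheck tB cB R1 = true := by decide +kernel

theorem R2_ok : rCheck tB cB R2 = true := by decide +kernel

theorem R3_ok : rCheck tB cB R3 = true := by decide +kernel

theorem R4_ok : rCheck tB cB R4 = true := by decide +kernel

theorem R5_ok : rCheck tB cB R5 = true := by decide +kernel

theorem R6_ok : rCheck tB cB R6 = true := by decide +kernel

theorem R7_ok : rCheck tB cB R7 = true := by decide +kernel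

theorem R8_ok : rCheck tB cB R8 = true := by decide +kernel

theorem R9_ok : rCheck tB cB R9 = true := by decide +kernel

theorem R10_ok : rCheck tB cB R10 = true := by decide +kernel

theorem R11_ok : rCheck tB cB R11 = true := by decide +kernel

theorem R12_ok : rCheck tB cB R12 = true := by decide +kernel

theorem R13_ok : rCheck tB cB R13 = true := by decide +kernel

end Pool.Agent.Helper62.Gen
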