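import Mathlib

/-!
# Counting the cycles of a permutation
-/

namespace Pool.Agent.Helper62.Gen

open Finset

theorem exists_lt_pow_eq {D : Type*} (φ : Equiv.Perm D) {d d' : D} {l : ℕ} (hl : 0 < l)
    (h : (φ ^ l) d = d) (hs : φ.SameCycle d d') : ∃ k < l, (φ ^ k) d = d' := by
  obtain ⟨i, hi⟩ := hs
  have hl' : (0 : ℤ) < l := by exact_mod_cast hl
  have hl0 : (l : ℤ) ≠ 0 := hl'.ne'
  refine ⟨(i % l).toNat, ?_, ?_⟩
  · have h1 := Int.emod_lt_of_pos i hl'
    have h2 := Int.emod_nonneg i hl0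
    omega
  · have h2 := Int.emod_nonneg i hl0
    have h3 : (φ ^ (i % (l : ℤ)).toNat) = φ ^ (i % (l : ℤ)) := by
      rw [← zpow_natCast, Int.toNat_of_nonneg h2]
    rw [h3, ← hi]
    conv_rhs => rw [← Int.emod_add_mul_ediv i l, zpow_add, zpow_mul]
    rw [Equiv.Perm.mul_apply, zpow_natCast,
      Equiv.Perm.zpow_apply_eq_self_of_apply_eq_self h]

/-- If `(φ ^ l d) d = d` for `d ∈ A`, then `∑_{d ∈ A} 1 / l d` is at most the number of cycles. -/
theorem sum_inv_le_card_cycles {D : Type*} [Finite D] (φ : Equiv.Perm D) (A : Finset D)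
    (l : D → ℕ) (h : ∀ d ∈ A, 0 < l d ∧ (φ ^ l d) d = d) :
    ∑ d ∈ A, (1 / (l d : ℝ)) ≤ Nat.card (Quotient (Equiv.Perm.SameCycle.setoid φ)) := by
  classical
  have := Fintype.ofFinite D
  have hQ : Finite (Quotient (Equiv.Perm.SameCycle.setoid φ)) := Quotient.finite _
  have := Fintype.ofFinite (Quotient (Equiv.Perm.SameCycle.setoid φ))
  rw [Nat.card_eq_fintype_card]
  rw [← Finset.sum_fiberwise A (fun d => (Quotient.mk (Equiv.Perm.SameCycle.setoid φ) d))]
  have hone : ∀ q : Quotient (Equiv.Perm.SameCycle.setoid φ),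
      ∑ d ∈ A with (Quotient.mk (Equiv.Perm.SameCycle.setoid φ) d) = q, (1 / (l d : ℝ)) ≤ 1 := by
    intro q
    set F := A.filter (fun d => (Quotient.mk (Equiv.Perm.SameCycle.setoid φ) d) = q) with hF
    have hcard : ∀ d ∈ F, F.card ≤ l d := by
      intro d hd
      rw [hF, Finset.mem_filter] at hd
      obtain ⟨hl, hld⟩ := h d hd.1
      have hsub : F ⊆ (Finset.range (l d)).image (fun k => (φ ^ k) d) := by
        intro d' hd'
        rw [hF, Finset.mem_filter] at hd'
        have hsc : φ.SameCycle d d' := by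
          have h1 : (Quotient.mk (Equiv.Perm.SameCycle.setoid φ) d) =
              Quotient.mk (Equiv.Perm.SameCycle.setoid φ) d' := hd.2.trans hd'.2.symm
          exact Quotient.exact h1
        obtain ⟨k, hk, hk'⟩ := exists_lt_pow_eq φ hl hld hsc
        exact Finset.mem_image.2 ⟨k, Finset.mem_range.2 hk, hk'⟩
      calc F.card ≤ ((Finset.range (l d)).image (fun k => (φ ^ k) d)).card :=
            Finset.card_le_card hsub
        _ ≤ (Finset.range (l d)).card := Finset.card_image_le
        _ = l d := Finset.card_range _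
    rcases F.eq_empty_or_nonempty with hE | hne
    · rw [hE]; simp
    · have hpos : (0 : ℝ) < F.card := by exact_mod_cast hne.card_pos
      calc ∑ d ∈ F, (1 / (l d : ℝ)) ≤ ∑ _d ∈ F, (1 / (F.card : ℝ)) := by
            apply Finset.sum_le_sum
            intro d hd
            exact one_div_le_one_div_of_le hpos (by exact_mod_cast hcard d hd)
        _ = 1 := by
            rw [Finset.sum_const, nsmul_eq_mul, mul_one_div_cancel hpos.ne']
  calc ∑ q : Quotient (Equiv.Perm.SameCycle.setoid φ),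
        ∑ d ∈ A with (Quotient.mk (Equiv.Perm.SameCycle.setoid φ) d) = q, (1 / (l d : ℝ))
      ≤ ∑ _q : Quotient (Equiv.Perm.SameCycle.setoid φ), (1 : ℝ) :=
        Finset.sum_le_sum fun q _ => hone q
    _ = (Fintype.card (Quotient (Equiv.Perm.SameCycle.setoid φ)) : ℝ) := by
        rw [Finset.sum_const, nsmul_eq_mul, mul_one, Finset.card_univ]

/-- Conjugate permutations have the same number of cycles. -/
theorem card_cycles_conj {D E : Type*} (e : D ≃ E) (φ : Equiv.Perm D) (ψ : Equiv.Perm E)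
    (h : ∀ d, e (φ d) = ψ (e d)) :
    Nat.card (Quotient (Equiv.Perm.SameCycle.setoid φ)) =
      Nat.card (Quotient (Equiv.Perm.SameCycle.setoid ψ)) := by
  have hpow : ∀ (i : ℤ) d, e ((φ ^ i) d) = (ψ ^ i) (e d) := by
    have h1 : ψ = e.permCongr φ := by
      ext b
      rw [Equiv.permCongr_apply, h, Equiv.apply_symm_apply]
    intro i d
    have h2 : e.permCongr (φ ^ i) = (e.permCongr φ) ^ i := map_zpow (e.permCongrHom) φ i
    rw [h1, ← h2, Equiv.permCongr_apply, Equiv.symm_apply_apply]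
  apply Nat.card_congr
  refine Quotient.congr e ?_
  intro a b
  constructor
  · rintro ⟨i, hi⟩
    exact ⟨i, by rw [← hpow, hi]⟩
  · rintro ⟨i, hi⟩
    refine ⟨i, e.injective ?_⟩
    rw [hpow, hi]

end Pool.Agent.Helper62.Gen
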