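import Mathlib

/-!
# Cayley graphs, rotation systems and the orientable Euler characteristic of a finite group

An embedding of a connected graph in a closed orientable surface whose faces are open discs is given,
up to homeomorphism, by a rotation system: a cyclic order of the darts at every vertex.
-/

namespace Pool.Agent.Helper62.Gen

/-- The Cayley graph `C(G, X)`: `g` is joined to `g * x` for `x ∈ X` (loops are dropped). -/
def cayleyGraph {G : Type} [Group G] (X : Set G) : SimpleGraph G where
  Adj g h := g ≠ h ∧ ∃ x ∈ X, h = g * x ∨ g = h * x
  symm := ⟨fun _ _ ⟨hne, x, hx, h⟩ => ⟨hne.symm, x, hx, h.symm⟩⟩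
  loopless := ⟨fun _ h => h.1 rfl⟩

/-- A rotation system of a graph: a permutation of the darts which permutes the darts starting at
each vertex cyclically. -/
structure RotationSystem {V : Type} (Γ : SimpleGraph V) where
  /-- the next dart at the same vertex -/
  rot : Equiv.Perm Γ.Dart
  fst_rot : ∀ d, (rot d).fst = d.fst
  cyclic : ∀ d d' : Γ.Dart, d.fst = d'.fst → rot.SameCycle d d'

namespace RotationSystem

variable {V : Type} {Γ : SimpleGraph V}

/-- The reversal of darts, as a permutation. -/
def rev (Γ : SimpleGraph V) : Equiv.Perm Γ.Dart :=
  ⟨SimpleGraph.Dart.symm, SimpleGraph.Dart.symm, SimpleGraph.Dart.symm_symm,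
    SimpleGraph.Dart.symm_symm⟩

/-- Face tracing: after the dart `d` comes the dart that follows the reverse of `d` in the rotation
at the end of `d`. -/
def facePerm (R : RotationSystem Γ) : Equiv.Perm Γ.Dart := (rev Γ).trans R.rot

/-- The number of faces: the number of cycles of the face tracing permutation. -/
noncomputable def numFaces (R : RotationSystem Γ) : ℕ :=
  Nat.card (Quotient (Equiv.Perm.SameCycle.setoid R.facePerm))

/-- The Euler characteristic `V - E + F` of the surface. -/
noncomputable def eulerChar (R : RotationSystem Γ) : ℤ :=
  (Nat.card V : ℤ) - Nat.card Γ.edgeSet + R.numFaces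

end RotationSystem

/-- `chi G`: the largest Euler characteristic of a closed orientable surface in which some Cayley
graph of the finite group `G` is (cellularly) embedded. -/
noncomputable def chi (G : Type) [Group G] : ℤ :=
  sSup {e : ℤ | ∃ X : Set G, Subgroup.closure X = ⊤ ∧
    ∃ R : RotationSystem (cayleyGraph X), e = R.eulerChar}

/-- For a finite group, every embedding bounds `chi` from below. -/
theorem le_chi {G : Type} [Group G] [Finite G] (X : Set G) (hX : Subgroup.closure X = ⊤)
    (R : RotationSystem (cayleyGraph X)) : R.eulerChar ≤ chi G := by
  apply le_csSup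
  · have hfin : Set.Finite {e : ℤ | ∃ X : Set G, Subgroup.closure X = ⊤ ∧
        ∃ R : RotationSystem (cayleyGraph X), e = R.eulerChar} := by
      have hinj : ∀ X : Set G, Finite (RotationSystem (cayleyGraph X)) := by
        intro X
        have : Finite (cayleyGraph X).Dart := by
          apply Finite.of_injective (fun d : (cayleyGraph X).Dart => d.toProd)
          exact SimpleGraph.Dart.toProd_injective
        apply Finite.of_injective (fun R : RotationSystem (cayleyGraph X) => R.rot)
        intro a b h
        cases a; cases b; simp_all
      have : {e : ℤ | ∃ X : Set G, Subgroup.closure X = ⊤ ∧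
          ∃ R : RotationSystem (cayleyGraph X), e = R.eulerChar} ⊆
          ⋃ X : Set G, Set.range (fun R : RotationSystem (cayleyGraph X) => R.eulerChar) := by
        rintro e ⟨X, -, R, rfl⟩
        exact Set.mem_iUnion.2 ⟨X, R, rfl⟩
      refine Set.Finite.subset ?_ this
      apply Set.finite_iUnion
      intro X
      exact Set.finite_range _
    exact hfin.bddAbove
  · exact ⟨X, hX, R, rfl⟩

end Pool.Agent.Helper62.Gen
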