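import Pool.Agent.Helper62.Gen.Defs
import Pool.Agent.Helper62.Gen.Cycles

/-!
# Embedding a cubic Cayley graph along a two-colouring of its vertices
-/

namespace Pool.Agent.Helper62.Gen

open Finset

section Emb

variable {G : Type} [Group G] (s : Fin 3 → G) (c : G → Bool)

/-- The next letter in the rotation at a vertex of colour `b`. -/
def rt (b : Bool) (i : Fin 3) : Fin 3 := bif b then i + 1 else i + 2

theorem rt_rt (b : Bool) (i : Fin 3) : rt (!b) (rt b i) = i := by
  revert b i; decide

theorem rt_rt' (b : Bool) (i : Fin 3) : rt b (rt (!b) i) = i := by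
  revert b i; decide

/-- The rotation on `G × Fin 3`. -/
def rotF : Equiv.Perm (G × Fin 3) where
  toFun p := (p.1, rt (c p.1) p.2)
  invFun p := (p.1, rt (!c p.1) p.2)
  left_inv p := by simp [rt_rt]
  right_inv p := by simp [rt_rt']

/-- Reversal of darts on `G × Fin 3`. -/
def revF (h2 : ∀ i, s i * s i = 1) : Equiv.Perm (G × Fin 3) where
  toFun p := (p.1 * s p.2, p.2)
  invFun p := (p.1 * s p.2, p.2)
  left_inv p := by simp [mul_assoc, h2]
  right_inv p := by simp [mul_assoc, h2]

/-- The face tracing permutation on `G × Fin 3`. -/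
def phi (h2 : ∀ i, s i * s i = 1) : Equiv.Perm (G × Fin 3) := (revF s h2).trans (rotF c)

theorem phi_apply (h2 : ∀ i, s i * s i = 1) (g : G) (i : Fin 3) :
    phi s c h2 (g, i) = (g * s i, rt (c (g * s i)) i) := rfl

/-- The walk from `g` with letters `i, j, i, j, …`. -/
def walk : G → Fin 3 → Fin 3 → ℕ → G × Fin 3
  | g, i, _, 0 => (g, i)
  | g, i, j, k + 1 => walk (g * s i) j i k

/-- The colours alternate along the first `k` steps of the walk. -/
def Alt : G → Fin 3 → Fin 3 → ℕ → Prop
  | _, _, _, 0 => True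
  | g, i, j, k + 1 => c (g * s i) = !c g ∧ Alt (g * s i) j i k

theorem phi_pow (h2 : ∀ i, s i * s i = 1) (k : ℕ) : ∀ (g : G) (i : Fin 3),
    Alt s c g i (rt (!c g) i) k →
      (phi s c h2 ^ k) (g, i) = walk s g i (rt (!c g) i) k := by
  induction k with
  | zero => intro g i _; rfl
  | succ k ih =>
    intro g i h
    obtain ⟨h1, h3⟩ := h
    rw [pow_succ, Equiv.Perm.mul_apply, phi_apply, h1]
    have h4 : rt (!c (g * s i)) (rt (!c g) i) = i := by rw [h1]; simpa using rt_rt (!c g) i
    have h5 := ih (g * s i) (rt (!c g) i) (by rw [h4]; exact h3)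
    rw [h5, h4]
    rfl

theorem walk_two_mul (m : ℕ) : ∀ (g : G) (i j : Fin 3),
    walk s g i j (2 * m) = (g * (s i * s j) ^ m, i) := by
  induction m with
  | zero => intro g i j; simp [walk]
  | succ m ih =>
    intro g i j
    rw [show 2 * (m + 1) = 2 * m + 1 + 1 by ring]
    simp only [walk]
    rw [ih, pow_succ']
    simp [mul_assoc]

/-- Half of the length of the relator face with letters `i`, `j`. -/
def mm (i j : Fin 3) : ℕ :=
  if i = j then 1 else if i + j = 1 then 2 else if i + j = 0 then 3 else 7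

theorem mm_pos (i j : Fin 3) : 0 < mm i j := by revert i j; decide

/-- The darts of the Cayley graph. -/
noncomputable def dartEquiv (h2 : ∀ i, s i * s i = 1) (h1 : ∀ i, s i ≠ 1)
    (hinj : Function.Injective s) : G × Fin 3 ≃ (cayleyGraph (Set.range s)).Dart :=
  Equiv.ofBijective
    (fun p => (⟨(p.1, p.1 * s p.2), by
      refine ⟨fun h => h1 p.2 ?_, s p.2, ⟨p.2, rfl⟩, Or.inl rfl⟩
      exact (mul_eq_left.1 h.symm)⟩ :
      (cayleyGraph (Set.range s)).Dart))
    (by
      constructor
      · rintro ⟨g, i⟩ ⟨g', i'⟩ h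
        have h3 := congrArg SimpleGraph.Dart.toProd h
        simp only [Prod.mk.injEq] at h3
        obtain ⟨rfl, h4⟩ := h3
        rw [hinj (mul_left_cancel h4)]
      · rintro ⟨⟨g, g'⟩, hne, x, ⟨i, rfl⟩, h⟩
        refine ⟨(g, i), ?_⟩
        apply SimpleGraph.Dart.toProd_injective
        simp only [Prod.mk.injEq, true_and]
        rcases h with h | h
        · exact h.symm
        · have : g = g' * s i := h
          rw [this, mul_assoc, h2, mul_one])

/-- The rotation system. -/
noncomputable def rotSys (h2 : ∀ i, s i * s i = 1) (h1 : ∀ i, s i ≠ 1)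
    (hinj : Function.Injective s) : RotationSystem (cayleyGraph (Set.range s)) where
  rot := (dartEquiv s h2 h1 hinj).permCongr (rotF c)
  fst_rot := by
    intro d
    obtain ⟨p, rfl⟩ := (dartEquiv s h2 h1 hinj).surjective d
    rw [Equiv.permCongr_apply, Equiv.symm_apply_apply]
    rfl
  cyclic := by
    intro d d' h
    obtain ⟨⟨g, i⟩, rfl⟩ := (dartEquiv s h2 h1 hinj).surjective d
    obtain ⟨⟨g', i'⟩, rfl⟩ := (dartEquiv s h2 h1 hinj).surjective d'
    have hg : g = g' := h
    subst hg
    have hk : ∃ k : ℕ, (rotF c ^ k) (g, i) = (g, i') := by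
      have h0 : ∀ (b : Bool) (i i' : Fin 3), i' = i ∨ i' = rt b i ∨ i' = rt b (rt b i) := by
        decide
      rcases h0 (c g) i i' with h3 | h3 | h3
      · exact ⟨0, by rw [h3]; rfl⟩
      · exact ⟨1, by rw [h3]; rfl⟩
      · exact ⟨2, by rw [h3]; rfl⟩
    obtain ⟨k, hk⟩ := hk
    refine ⟨k, ?_⟩
    have h2 : (dartEquiv s h2 h1 hinj).permCongr (rotF c ^ k) =
        ((dartEquiv s h2 h1 hinj).permCongr (rotF c)) ^ k :=
      map_pow ((dartEquiv s h2 h1 hinj).permCongrHom) (rotF c) k
    rw [zpow_natCast, ← h2, Equiv.permCongr_apply, Equiv.symm_apply_apply, hk]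

theorem numFaces_eq (h2 : ∀ i, s i * s i = 1) (h1 : ∀ i, s i ≠ 1)
    (hinj : Function.Injective s) : (rotSys s c h2 h1 hinj).numFaces =
      Nat.card (Quotient (Equiv.Perm.SameCycle.setoid (phi s c h2))) := by
  symm
  refine card_cycles_conj (dartEquiv s h2 h1 hinj) _ _ ?_
  rintro ⟨g, i⟩
  have h3 : SimpleGraph.Dart.symm (dartEquiv s h2 h1 hinj (g, i)) =
      dartEquiv s h2 h1 hinj (g * s i, i) := by
    apply SimpleGraph.Dart.toProd_injective
    change (g * s i, g) = (g * s i, g * s i * s i)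
    rw [mul_assoc, h2, mul_one]
  change _ = (dartEquiv s h2 h1 hinj).permCongr (rotF c)
    (SimpleGraph.Dart.symm (dartEquiv s h2 h1 hinj (g, i)))
  rw [h3, Equiv.permCongr_apply, Equiv.symm_apply_apply]
  rfl

theorem card_edges [Finite G] (h2 : ∀ i, s i * s i = 1) (h1 : ∀ i, s i ≠ 1)
    (hinj : Function.Injective s) :
    2 * Nat.card (cayleyGraph (Set.range s)).edgeSet = 3 * Nat.card G := by
  classical
  have := Fintype.ofFinite G
  have h3 := (cayleyGraph (Set.range s)).dart_card_eq_twice_card_edges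
  have h4 : Nat.card (cayleyGraph (Set.range s)).edgeSet =
      (cayleyGraph (Set.range s)).edgeFinset.card := by
    rw [Nat.card_eq_fintype_card, ← Set.toFinset_card]; rfl
  rw [h4, ← h3, ← Nat.card_eq_fintype_card, ← Nat.card_congr (dartEquiv s h2 h1 hinj),
    Nat.card_prod, Nat.card_eq_fintype_card (α := Fin 3), Fintype.card_fin, mul_comm]

open Classical in
/-- The Euler characteristic of the embedding. -/
theorem eulerChar_ge [Fintype G] (h2 : ∀ i, s i * s i = 1) (h1 : ∀ i, s i ≠ 1)
    (hinj : Function.Injective s) (hxy : (s 0 * s 1) ^ 2 = 1) (hyz : (s 1 * s 2) ^ 3 = 1)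
    (hxz : (s 0 * s 2) ^ 7 = 1) :
    -(Fintype.card G : ℝ) / 2
      + ((univ.filter (fun g => Alt s c g 0 1 4 ∧ Alt s c g 1 0 4)).card : ℝ) / 4
      + ((univ.filter (fun g => Alt s c g 1 2 6 ∧ Alt s c g 2 1 6)).card : ℝ) / 6
      + ((univ.filter (fun g => Alt s c g 0 2 14 ∧ Alt s c g 2 0 14)).card : ℝ) / 14
      ≤ ((rotSys s c h2 h1 hinj).eulerChar : ℝ) := by
  have hrel : ∀ i j : Fin 3, i ≠ j → (s i * s j) ^ mm i j = 1 := by
    have inv : ∀ i j : Fin 3, ∀ m : ℕ, (s i * s j) ^ m = 1 → (s j * s i) ^ m = 1 := by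
      intro i j m h
      have h3 : s j * s i = (s i * s j)⁻¹ := by
        rw [mul_inv_rev, eq_comm]
        have e1 : (s j)⁻¹ = s j := inv_eq_of_mul_eq_one_left (h2 j)
        have e2 : (s i)⁻¹ = s i := inv_eq_of_mul_eq_one_left (h2 i)
        rw [e1, e2]
      rw [h3, inv_pow, h, inv_one]
    intro i j hij
    fin_cases i <;> fin_cases j <;> first | exact absurd rfl hij | skip
    · exact hxy
    · exact hxz
    · exact inv 0 1 2 hxy
    · exact hyz
    · exact inv 0 2 7 hxz
    · exact inv 1 2 3 hyz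
  -- the set of good darts
  set A : Finset (G × Fin 3) := univ.filter (fun p =>
    Alt s c p.1 p.2 (rt (!c p.1) p.2) (2 * mm p.2 (rt (!c p.1) p.2))) with hA
  have hne : ∀ (b : Bool) (i : Fin 3), i ≠ rt b i := by decide
  have hF := sum_inv_le_card_cycles (phi s c h2) A
    (fun p => 2 * mm p.2 (rt (!c p.1) p.2)) (by
      rintro ⟨g, i⟩ hgi
      rw [hA, Finset.mem_filter] at hgi
      refine ⟨by have := mm_pos i (rt (!c g) i); positivity, ?_⟩
      rw [phi_pow s c h2 _ g i hgi.2, walk_two_mul, hrel _ _ (hne _ _), mul_one])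
  rw [← numFaces_eq s c h2 h1 hinj] at hF
  have hE : (2 : ℝ) * (Nat.card (cayleyGraph (Set.range s)).edgeSet : ℝ) =
      3 * (Fintype.card G : ℝ) := by
    have := card_edges s h2 h1 hinj
    rw [Nat.card_eq_fintype_card (α := G)] at this
    exact_mod_cast this
  have hsum : ((univ.filter (fun g => Alt s c g 0 1 4 ∧ Alt s c g 1 0 4)).card : ℝ) / 4
      + ((univ.filter (fun g => Alt s c g 1 2 6 ∧ Alt s c g 2 1 6)).card : ℝ) / 6
      + ((univ.filter (fun g => Alt s c g 0 2 14 ∧ Alt s c g 2 0 14)).card : ℝ) / 14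
      ≤ ∑ p ∈ A, (1 / ((2 * mm p.2 (rt (!c p.1) p.2) : ℕ) : ℝ)) := by
    rw [hA, Finset.sum_filter, Fintype.sum_prod_type]
    rw [Finset.card_filter, Finset.card_filter, Finset.card_filter]
    push_cast
    rw [Finset.sum_div, Finset.sum_div, Finset.sum_div, ← Finset.sum_add_distrib,
      ← Finset.sum_add_distrib]
    apply Finset.sum_le_sum
    intro g _
    rw [Fin.sum_univ_three]
    have m1 : mm 0 1 = 2 := by decide
    have m2 : mm 1 0 = 2 := by decide
    have m3 : mm 1 2 = 3 := by decide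
    have m4 : mm 2 1 = 3 := by decide
    have m5 : mm 0 2 = 7 := by decide
    have m6 : mm 2 0 = 7 := by decide
    cases hc : c g
    · have r0 : rt (!false) 0 = 1 := by decide
      have r1 : rt (!false) 1 = 2 := by decide
      have r2 : rt (!false) 2 = 0 := by decide
      rw [r0, r1, r2, m1, m3, m6]
      have t1 : (if Alt s c g 0 1 4 ∧ Alt s c g 1 0 4 then (1 : ℝ) else 0) / 4 ≤
          if Alt s c g 0 1 (2 * 2) then (1 / (2 * (2 : ℕ)) : ℝ) else 0 := by
        split_ifs with a b b
        · norm_num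
        · exact absurd a.1 b
        · norm_num
        · norm_num
      have t2 : (if Alt s c g 1 2 6 ∧ Alt s c g 2 1 6 then (1 : ℝ) else 0) / 6 ≤
          if Alt s c g 1 2 (2 * 3) then (1 / (2 * (3 : ℕ)) : ℝ) else 0 := by
        split_ifs with a b b
        · norm_num
        · exact absurd a.1 b
        · norm_num
        · norm_num
      have t3 : (if Alt s c g 0 2 14 ∧ Alt s c g 2 0 14 then (1 : ℝ) else 0) / 14 ≤
          if Alt s c g 2 0 (2 * 7) then (1 / (2 * (7 : ℕ)) : ℝ) else 0 := by
        split_ifs with a b b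
        · norm_num
        · exact absurd a.2 b
        · norm_num
        · norm_num
      linarith
    · have r0 : rt (!true) 0 = 2 := by decide
      have r1 : rt (!true) 1 = 0 := by decide
      have r2 : rt (!true) 2 = 1 := by decide
      rw [r0, r1, r2, m5, m2, m4]
      have t1 : (if Alt s c g 0 1 4 ∧ Alt s c g 1 0 4 then (1 : ℝ) else 0) / 4 ≤
          if Alt s c g 1 0 (2 * 2) then (1 / (2 * (2 : ℕ)) : ℝ) else 0 := by
        split_ifs with a b b
        · norm_num
        · exact absurd a.2 b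
        · norm_num
        · norm_num
      have t2 : (if Alt s c g 1 2 6 ∧ Alt s c g 2 1 6 then (1 : ℝ) else 0) / 6 ≤
          if Alt s c g 2 1 (2 * 3) then (1 / (2 * (3 : ℕ)) : ℝ) else 0 := by
        split_ifs with a b b
        · norm_num
        · exact absurd a.2 b
        · norm_num
        · norm_num
      have t3 : (if Alt s c g 0 2 14 ∧ Alt s c g 2 0 14 then (1 : ℝ) else 0) / 14 ≤
          if Alt s c g 0 2 (2 * 7) then (1 / (2 * (7 : ℕ)) : ℝ) else 0 := by
        split_ifs with a b b
        · norm_num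
        · exact absurd a.1 b
        · norm_num
        · norm_num
      linarith
  unfold RotationSystem.eulerChar
  push_cast
  rw [Nat.card_eq_fintype_card (α := G)]
  linarith

end Emb

end Pool.Agent.Helper62.Gen
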