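import Pool.Agent.Helper62.Gen.CheckE
import Pool.Agent.Helper62.Gen.CheckR

/-!
# The bound for all large `n`
-/

namespace Pool.Agent.Helper62.Gen

/-- The left pieces. -/
def Elist : List EData := [E0, E1, E2, E3]

/-- The right pieces. -/
def Rlist : List RData := [R0, R1, R2, R3, R4, R5, R6, R7, R8, R9, R10, R11, R12, R13]

theorem residues : allB (fun r => Elist.any fun E => Rlist.any fun R =>
    Nat.beq ((E.nE + R.nR) % 56) r && Nat.ble (E.nE + R.nR) 698) 0 56 = true := by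
  decide +kernel

theorem exists_pieces (n : ℕ) (hn : 978 ≤ n) :
    ∃ E ∈ Elist, ∃ R ∈ Rlist, ∃ K, 5 ≤ K ∧ n = E.nE + 56 * K + R.nR := by
  have h := allB_spec residues (n % 56) (Nat.zero_le _) (by omega)
  rw [List.any_eq_true] at h
  obtain ⟨E, hE, h⟩ := h
  rw [List.any_eq_true] at h
  obtain ⟨R, hR, h⟩ := h
  rw [Bool.and_eq_true, Nat.beq_eq, Nat.ble_eq] at h
  obtain ⟨h1, h2⟩ := h
  refine ⟨E, hE, R, hR, (n - (E.nE + R.nR)) / 56, ?_, ?_⟩
  · rw [Nat.le_div_iff_mul_le (by norm_num)]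
    omega
  · omega

theorem checkE : ∀ E ∈ Elist, eCheck1 tB cB E = true ∧ eCheck2 tB E = true ∧
    eCheck3 tB cB E = true ∧ eCheck4 tB E := by
  intro E hE
  simp only [Elist, List.mem_cons, List.not_mem_nil, or_false] at hE
  rcases hE with rfl | rfl | rfl | rfl
  · exact ⟨E0_1, E0_2, E0_3, E0_4⟩
  · exact ⟨E1_1, E1_2, E1_3, E1_4⟩
  · exact ⟨E2_1, E2_2, E2_3, E2_4⟩
  · exact ⟨E3_1, E3_2, E3_3, E3_4⟩

theorem checkR : ∀ R ∈ Rlist, rCheck tB cB R = true := by
  intro R hR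
  simp only [Rlist, List.mem_cons, List.not_mem_nil, or_false] at hR
  rcases hR with rfl | rfl | rfl | rfl | rfl | rfl | rfl | rfl | rfl | rfl | rfl | rfl | rfl | rfl
  · exact R0_ok
  · exact R1_ok
  · exact R2_ok
  · exact R3_ok
  · exact R4_ok
  · exact R5_ok
  · exact R6_ok
  · exact R7_ok
  · exact R8_ok
  · exact R9_ok
  · exact R10_ok
  · exact R11_ok
  · exact R12_ok
  · exact R13_ok

/-- The lower bound for the Euler characteristic of `A_n`. -/
theorem chi_alternating (n : ℕ) (hn : 978 ≤ n) :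
    -(Nat.card (alternatingGroup (Fin n)) : ℝ) / 84
      - 27 / 4 * (Nat.card (alternatingGroup (Fin n)) : ℝ) / n
      ≤ (chi (alternatingGroup (Fin n)) : ℝ) := by
  obtain ⟨E, hE, R, hR, K, hK, rfl⟩ := exists_pieces n hn
  obtain ⟨h1, h2, h3, h4⟩ := checkE E hE
  exact chi_of_chain hK bCheck_ok (checkR R hR) h1 h2 h3 h4

end Pool.Agent.Helper62.Gen
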