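import Mathlib

/-!
# A criterion for three involutions to generate the alternating group
-/

namespace Pool.Agent.Helper62.Gen

open Equiv MulAction
open scoped Pointwise

variable {α : Type*} [Fintype α] [DecidableEq α]

omit [Fintype α] [DecidableEq α] in
theorem app_inv (f : Perm α) (a : α) : f (f⁻¹ a) = a := Equiv.apply_symm_apply f a

omit [Fintype α] [DecidableEq α] in
theorem inv_app (f : Perm α) (a : α) : f⁻¹ (f a) = a := Equiv.symm_apply_apply f a

/-- If exactly one point is moved by both `u` and `v`, their commutator is a three-cycle. -/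
theorem isThreeCycle_comm (u v : Perm α) (t : α) (h : ∀ a, u a ≠ a → v a ≠ a → a = t)
    (hu : u t ≠ t) (hv : v t ≠ t) : (u * v * u⁻¹ * v⁻¹).IsThreeCycle := by
  have inv_iff : ∀ (f : Perm α) (a b : α), f⁻¹ a = b ↔ a = f b := fun f a b =>
    Perm.inv_eq_iff_eq
  have hu' : u⁻¹ t ≠ t := fun e => hu ((inv_iff u t t).1 e).symm
  have hv' : v⁻¹ t ≠ t := fun e => hv ((inv_iff v t t).1 e).symm
  have ufix : ∀ a, v a ≠ a → a ≠ t → u a = a := fun a h1 h2 => by
    by_contra h3; exact h2 (h a h3 h1)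
  have vfix : ∀ a, u a ≠ a → a ≠ t → v a = a := fun a h1 h2 => by
    by_contra h3; exact h2 (h a h1 h3)
  have u_vt : u (v t) = v t := ufix _ (fun e => hv (v.injective e)) hv
  have v_ut : v (u t) = u t := vfix _ (fun e => hu (u.injective e)) hu
  have hne : u t ≠ v t := by
    intro e
    rw [e] at v_ut
    exact hv (v.injective v_ut)
  have e1 : (u * v * u⁻¹ * v⁻¹) (v t) = t := by
    have h1 : v (u⁻¹ t) = u⁻¹ t := vfix _ (by rw [app_inv]; exact hu'.symm) hu'
    rw [Perm.mul_apply, Perm.mul_apply, Perm.mul_apply, inv_app, h1,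
      app_inv]
  have e2 : (u * v * u⁻¹ * v⁻¹) t = u t := by
    have h1 : u (v⁻¹ t) = v⁻¹ t := ufix _ (by rw [app_inv]; exact hv'.symm) hv'
    have h2 : u⁻¹ (v⁻¹ t) = v⁻¹ t := by rw [inv_iff]; exact h1.symm
    rw [Perm.mul_apply, Perm.mul_apply, Perm.mul_apply, h2, app_inv]
  have e3 : (u * v * u⁻¹ * v⁻¹) (u t) = v t := by
    have h1 : v⁻¹ (u t) = u t := by rw [inv_iff]; exact v_ut.symm
    rw [Perm.mul_apply, Perm.mul_apply, Perm.mul_apply, h1, inv_app, u_vt]
  have e4 : ∀ a, a ≠ t → a ≠ u t → a ≠ v t → (u * v * u⁻¹ * v⁻¹) a = a := by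
    intro a h1 h2 h3
    rw [Perm.mul_apply, Perm.mul_apply, Perm.mul_apply]
    by_cases hva : v a = a
    · have h4 : v⁻¹ a = a := by rw [inv_iff]; exact hva.symm
      rw [h4]
      by_cases hua : u a = a
      · have h5 : u⁻¹ a = a := by rw [inv_iff]; exact hua.symm
        rw [h5, hva, hua]
      · have h6 : v (u⁻¹ a) = u⁻¹ a := by
          apply vfix
          · rw [app_inv]
            intro e
            exact hua ((inv_iff u a a).1 e.symm).symm
          · intro e
            exact h2 ((inv_iff u a t).1 e)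
        rw [h6, app_inv]
    · have hua : u a = a := ufix a hva h1
      have h7 : v⁻¹ a ≠ t := fun e => h3 ((inv_iff v a t).1 e)
      have h8 : u (v⁻¹ a) = v⁻¹ a := by
        apply ufix _ _ h7
        rw [app_inv]
        intro e
        exact hva ((inv_iff v a a).1 e.symm).symm
      have h9 : u⁻¹ (v⁻¹ a) = v⁻¹ a := by rw [inv_iff]; exact h8.symm
      rw [h9, app_inv, hua]
  rw [← card_support_eq_three_iff]
  have hsupp : (u * v * u⁻¹ * v⁻¹).support = {t, u t, v t} := by
    ext a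
    rw [Perm.mem_support]
    simp only [Finset.mem_insert, Finset.mem_singleton]
    constructor
    · intro h1
      by_contra h2
      push Not at h2
      exact h1 (e4 a h2.1 h2.2.1 h2.2.2)
    · rintro (rfl | rfl | rfl)
      · rw [e2]; exact hu
      · rw [e3]; exact hne.symm
      · rw [e1]; exact hv.symm
  rw [hsupp, Finset.card_eq_three]
  exact ⟨t, u t, v t, hu.symm, hv.symm, hne, rfl⟩

/-- A transitive subgroup generated by `x, y, z` is primitive if it contains a cycle `u` of prime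
length whose support meets its images under `x`, `y` and the word `z x z y x`. -/
theorem isPreprimitive_of_cycle (x y z u : Perm α) (p : ℕ) (hp : p.Prime)
    (hxz : (z * x) ^ 7 = 1) (hx2 : x * x = 1)
    (hu : u ∈ Subgroup.closure {x, y, z}) (hup : u ^ p = 1) (s0 : α) 
    (hcyc : ∀ a, u a ≠ a → ∃ k : ℕ, (u ^ k) s0 = a)
    (hx : ∃ a, u a ≠ a ∧ u (x a) ≠ x a) (hy : ∃ a, u a ≠ a ∧ u (y a) ≠ y a)
    (hw : ∃ a, u a ≠ a ∧ u ((z * x * z * y * x) a) ≠ (z * x * z * y * x) a)
    (htrans : ∀ a b : α, ∃ g ∈ Subgroup.closure {x, y, z}, g a = b) :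
    IsPreprimitive (Subgroup.closure {x, y, z}) α := by
  set G := Subgroup.closure {x, y, z} with hG
  have hxG : x ∈ G := Subgroup.subset_closure (by simp)
  have hyG : y ∈ G := Subgroup.subset_closure (by simp)
  have hzG : z ∈ G := Subgroup.subset_closure (by simp)
  have : IsPretransitive G α := ⟨fun a b => by
    obtain ⟨g, hg, h⟩ := htrans a b
    exact ⟨⟨g, hg⟩, h⟩⟩
  refine ⟨?_⟩
  intro B hB
  by_cases hsub : B.Subsingleton
  · exact Or.inl hsub
  right
  rw [Set.not_subsingleton_iff] at hsub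
  obtain ⟨a, haB, b, hbB, hab⟩ := hsub
  obtain ⟨h, hh⟩ := MulAction.exists_smul_eq G a s0
  set B' := h • B with hB'
  have hBb : IsBlock G B' := hB.translate h
  have hs0B : s0 ∈ B' := ⟨a, haB, hh⟩
  -- elements which map a point of B' into B' stabilise B'
  have key : ∀ g : Perm α, g ∈ G → (∃ c ∈ B', g c ∈ B') → g • B' = B' := by
    rintro g hg ⟨c, hc, hgc⟩
    exact hBb.smul_eq_of_mem (g := ⟨g, hg⟩) hc hgc
  have hstab : ∀ g : Perm α, g • B' = B' ↔ g ∈ stabilizer (Perm α) B' := fun g => by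
    rw [mem_stabilizer_iff]
  have huB : u ∈ stabilizer (Perm α) B' := by
    rw [← hstab]
    have hbne : h • b ≠ s0 := by
      intro e
      apply hab
      rw [← hh] at e
      exact (smul_left_cancel h e).symm
    by_cases hub : u (h • b) = h • b
    · exact key u hu ⟨h • b, ⟨b, hbB, rfl⟩, by rw [hub]; exact ⟨b, hbB, rfl⟩⟩
    · obtain ⟨k, hk⟩ := hcyc _ hub
      have h1 : (u ^ k) • B' = B' :=
        key (u ^ k) (G.pow_mem hu k) ⟨s0, hs0B, by rw [hk]; exact ⟨b, hbB, rfl⟩⟩
      have hkp : Nat.Coprime k p := by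
        rw [Nat.coprime_comm, hp.coprime_iff_not_dvd]
        rintro ⟨m, rfl⟩
        apply hbne
        rw [← hk, pow_mul, hup, one_pow]; rfl
      obtain ⟨m, -, hm⟩ := Nat.exists_mul_mod_eq_one_of_coprime hkp hp.one_lt
      have h2 : u = (u ^ k) ^ m := by
        rw [← pow_mul, ← Nat.div_add_mod (k * m) p, pow_add, pow_mul, hup, one_pow, one_mul, hm,
          pow_one]
      rw [h2]
      rw [hstab] at h1 ⊢
      exact Subgroup.pow_mem _ h1 m
  -- the support of u is in B'
  have hsupp : ∀ c, u c ≠ c → c ∈ B' := by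
    intro c hc
    obtain ⟨k, rfl⟩ := hcyc c hc
    have h1 := Subgroup.pow_mem _ huB k
    rw [← hstab] at h1
    rw [← h1]
    exact ⟨s0, hs0B, rfl⟩
  have hxB : x ∈ stabilizer (Perm α) B' := by
    obtain ⟨c, hc1, hc2⟩ := hx
    rw [← hstab]
    exact key x hxG ⟨c, hsupp c hc1, hsupp _ hc2⟩
  have hyB : y ∈ stabilizer (Perm α) B' := by
    obtain ⟨c, hc1, hc2⟩ := hy
    rw [← hstab]
    exact key y hyG ⟨c, hsupp c hc1, hsupp _ hc2⟩
  have hwB : z * x * z * y * x ∈ stabilizer (Perm α) B' := by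
    obtain ⟨c, hc1, hc2⟩ := hw
    rw [← hstab]
    refine key _ ?_ ⟨c, hsupp c hc1, hsupp _ hc2⟩
    exact G.mul_mem (G.mul_mem (G.mul_mem (G.mul_mem hzG hxG) hzG) hyG) hxG
  have hzxz : z * x * z ∈ stabilizer (Perm α) B' := by
    have h1 := Subgroup.mul_mem _ hwB (Subgroup.inv_mem _ (Subgroup.mul_mem _ hyB hxB))
    have h2 : z * x * z * y * x * (y * x)⁻¹ = z * x * z := by group
    rwa [h2] at h1
  have hzx : z * x ∈ stabilizer (Perm α) B' := by
    have h1 := Subgroup.pow_mem _ (Subgroup.mul_mem _ hzxz hxB) 4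
    have h2 : (z * x * z * x) ^ 4 = z * x := by
      have h3 : z * x * z * x = (z * x) ^ 2 := by rw [pow_two]; group
      rw [h3, ← pow_mul, show 2 * 4 = 7 + 1 from rfl, pow_add, hxz, one_mul, pow_one]
    rwa [h2] at h1
  have hzB : z ∈ stabilizer (Perm α) B' := by
    have h1 := Subgroup.mul_mem _ hzx hxB
    have h2 : z * x * x = z := by rw [mul_assoc, hx2, mul_one]
    rwa [h2] at h1
  have hGB : G ≤ stabilizer (Perm α) B' := by
    rw [hG, Subgroup.closure_le]
    rintro g (rfl | rfl | rfl)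
    · exact hxB
    · exact hyB
    · exact hzB
  have huniv : B' = Set.univ := by
    ext c
    simp only [Set.mem_univ, iff_true]
    obtain ⟨g, hg, hgc⟩ := htrans s0 c
    have h1 := hGB hg
    rw [← hstab] at h1
    rw [← h1, ← hgc]
    exact ⟨s0, hs0B, rfl⟩
  rw [← inv_smul_smul h B, ← hB', huniv, Set.smul_set_univ]

/-- The criterion. -/
theorem closure_eq_alternatingGroup (x y z u g : Perm α) (p : ℕ) (hp : p.Prime)
    (hxz : (z * x) ^ 7 = 1) (hx2 : x * x = 1)
    (hxe : x ∈ alternatingGroup α) (hye : y ∈ alternatingGroup α) (hze : z ∈ alternatingGroup α)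
    (hu : u ∈ Subgroup.closure {x, y, z}) (hup : u ^ p = 1) (s0 : α)
    (hcyc : ∀ a, u a ≠ a → ∃ k : ℕ, (u ^ k) s0 = a)
    (hx : ∃ a, u a ≠ a ∧ u (x a) ≠ x a) (hy : ∃ a, u a ≠ a ∧ u (y a) ≠ y a)
    (hw : ∃ a, u a ≠ a ∧ u ((z * x * z * y * x) a) ≠ (z * x * z * y * x) a)
    (htrans : ∀ a b : α, ∃ g ∈ Subgroup.closure {x, y, z}, g a = b)
    (hg : g ∈ Subgroup.closure {x, y, z}) (t : α) (ht : u t ≠ t)
    (hgt : (g * u * g⁻¹) t ≠ t) (huniq : ∀ a, u a ≠ a → (g * u * g⁻¹) a ≠ a → a = t) :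
    Subgroup.closure {x, y, z} = alternatingGroup α := by
  apply le_antisymm
  · rw [Subgroup.closure_le]
    rintro g (rfl | rfl | rfl)
    · exact hxe
    · exact hye
    · exact hze
  · have hprim := isPreprimitive_of_cycle x y z u p hp hxz hx2 hu hup s0 hcyc hx hy hw htrans
    have h3 := isThreeCycle_comm u (g * u * g⁻¹) t huniq ht hgt
    refine Perm.alternatingGroup_le_of_isPreprimitive_of_isThreeCycle_mem hprim h3 ?_
    have hv : g * u * g⁻¹ ∈ Subgroup.closure {x, y, z} :=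
      Subgroup.mul_mem _ (Subgroup.mul_mem _ hg hu) (Subgroup.inv_mem _ hg)
    exact Subgroup.mul_mem _ (Subgroup.mul_mem _ (Subgroup.mul_mem _ hu hv)
      (Subgroup.inv_mem _ hu)) (Subgroup.inv_mem _ hv)

end Pool.Agent.Helper62.Gen
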