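import Pool.Agent.Helper62.Gen.Emb

/-!
# From a coset diagram to a Cayley graph of the alternating group
-/

namespace Pool.Agent.Helper62.Gen

open Finset Equiv

section Points

variable {n : ℕ} (σ : Fin 3 → Perm (Fin n)) (c0 : Fin n → Bool)

/-- The colours alternate along the first `k` steps of the walk from the point `q` with letters
`i, j, i, …`. -/
def AltQ : Fin n → Fin 3 → Fin 3 → ℕ → Prop
  | _, _, _, 0 => True
  | q, i, j, k + 1 => c0 (σ i q) = !c0 q ∧ AltQ (σ i q) j i k

/-- The fibres of `g ↦ g⁻¹ p0` all have the same size. -/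
theorem card_fibre (H : Subgroup (Perm (Fin n))) [Fintype H] (p0 : Fin n)
    (htr : ∀ a b : Fin n, ∃ g ∈ H, g a = b) (P : Fin n → Prop) [DecidablePred P] :
    n * (univ.filter (fun g : H => P ((g : Perm (Fin n))⁻¹ p0))).card =
      Fintype.card H * (univ.filter (fun q : Fin n => P q)).card := by
  classical
  set N : Fin n → ℕ := fun q => (univ.filter (fun g : H => (g : Perm (Fin n))⁻¹ p0 = q)).card
    with hN
  have hNeq : ∀ q q', N q ≤ N q' := by
    intro q q'
    obtain ⟨h, hh, hq⟩ := htr q q'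
    apply Finset.card_le_card_of_injOn (fun g : H => g * (⟨h, hh⟩ : H)⁻¹)
    · intro g hg
      simp only [Finset.coe_filter, Set.mem_ofPred_eq, Finset.mem_univ, true_and] at hg ⊢
      have : ((g * (⟨h, hh⟩ : H)⁻¹ : H) : Perm (Fin n)) = (g : Perm (Fin n)) * h⁻¹ := rfl
      rw [this, mul_inv_rev, inv_inv, Perm.mul_apply, hg, hq]
    · intro g _ g' _ h
      exact mul_right_cancel h
  have hNeq' : ∀ q q', N q = N q' := fun q q' => le_antisymm (hNeq q q') (hNeq q' q)
  have h1 : (univ.filter (fun g : H => P ((g : Perm (Fin n))⁻¹ p0))).card =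
      ∑ q ∈ univ.filter (fun q : Fin n => P q), N q := by
    rw [Finset.card_eq_sum_card_fiberwise (f := fun g : H => (g : Perm (Fin n))⁻¹ p0)
      (t := univ.filter (fun q : Fin n => P q))]
    · apply Finset.sum_congr rfl
      intro q hq
      rw [Finset.mem_filter] at hq
      rw [hN]
      congr 1
      ext g
      simp only [Finset.mem_filter, Finset.mem_univ, true_and]
      constructor
      · exact fun h => h.2
      · exact fun h => ⟨by rw [h]; exact hq.2, h⟩
    · intro g hg
      simp only [Finset.coe_filter, Set.mem_ofPred_eq, Finset.mem_univ, true_and] at hg ⊢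
      exact hg
  have h2 : Fintype.card H = ∑ q : Fin n, N q := by
    rw [← Finset.card_univ,
      Finset.card_eq_sum_card_fiberwise (f := fun g : H => (g : Perm (Fin n))⁻¹ p0)
        (t := univ) (fun _ _ => Finset.mem_coe.2 (Finset.mem_univ _))]
  have h3 : (univ.filter (fun g : H => P ((g : Perm (Fin n))⁻¹ p0))).card =
      (univ.filter (fun q : Fin n => P q)).card * N p0 := by
    rw [h1, Finset.sum_congr rfl (fun q _ => hNeq' q p0), Finset.sum_const, smul_eq_mul]
  have h4 : Fintype.card H = n * N p0 := by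
    rw [h2, Finset.sum_congr rfl (fun q _ => hNeq' q p0), Finset.sum_const, smul_eq_mul,
      Finset.card_univ, Fintype.card_fin]
  rw [h3, h4]
  ring

open Classical in
/-- The Euler characteristic of a Cayley graph of the alternating group, from a two-coloured
coset diagram. -/
theorem chi_ge_of_points (p0 : Fin n)
    (hmem : ∀ i, σ i ∈ alternatingGroup (Fin n))
    (hcl : Subgroup.closure (Set.range σ) = alternatingGroup (Fin n))
    (h2 : ∀ i, σ i * σ i = 1) (h1 : ∀ i, σ i ≠ 1) (hinj : Function.Injective σ)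
    (hxy : (σ 1 * σ 0) ^ 2 = 1) (hyz : (σ 2 * σ 1) ^ 3 = 1) (hxz : (σ 2 * σ 0) ^ 7 = 1)
    (htr : ∀ a b : Fin n, ∃ g ∈ alternatingGroup (Fin n), g a = b)
    (C : ℝ)
    (hC : ((univ.filter (fun q => ¬ (AltQ σ c0 q 0 1 4 ∧ AltQ σ c0 q 1 0 4))).card : ℝ) / 4
      + ((univ.filter (fun q => ¬ (AltQ σ c0 q 1 2 6 ∧ AltQ σ c0 q 2 1 6))).card : ℝ) / 6
      + ((univ.filter (fun q => ¬ (AltQ σ c0 q 0 2 14 ∧ AltQ σ c0 q 2 0 14))).card : ℝ) / 14
      ≤ C) :
    -(Nat.card (alternatingGroup (Fin n)) : ℝ) / 84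
      - C * (Nat.card (alternatingGroup (Fin n)) : ℝ) / n
      ≤ (chi (alternatingGroup (Fin n)) : ℝ) := by
  have hn : 0 < n := p0.pos
  have hnR : (0 : ℝ) < n := by exact_mod_cast hn
  set s : Fin 3 → alternatingGroup (Fin n) := fun i => ⟨σ i, hmem i⟩ with hs
  set c : alternatingGroup (Fin n) → Bool := fun g => c0 ((g : Perm (Fin n))⁻¹ p0) with hc
  have hs2 : ∀ i, s i * s i = 1 := fun i => Subtype.ext (h2 i)
  have hs1 : ∀ i, s i ≠ 1 := fun i h => h1 i (congrArg Subtype.val h)
  have hsinj : Function.Injective s := fun i j h => hinj (congrArg Subtype.val h)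
  have hinv : ∀ i, (σ i)⁻¹ = σ i := fun i => inv_eq_of_mul_eq_one_left (h2 i)
  have flip : ∀ i j : Fin 3, ∀ m : ℕ, (σ j * σ i) ^ m = 1 → (s i * s j) ^ m = 1 := by
    intro i j m h
    apply Subtype.ext
    change (σ i * σ j) ^ m = 1
    have h3 : σ i * σ j = (σ j * σ i)⁻¹ := by rw [mul_inv_rev, hinv, hinv]
    rw [h3, inv_pow, h, inv_one]
  have hgen : Subgroup.closure (Set.range s) = ⊤ := by
    apply Subgroup.map_injective (alternatingGroup (Fin n)).subtype_injective
    rw [MonoidHom.map_closure, ← Set.range_comp, ← MonoidHom.range_eq_map,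
      Subgroup.range_subtype]
    exact hcl
  have hstep : ∀ (g : alternatingGroup (Fin n)) (i : Fin 3),
      ((g * s i : alternatingGroup (Fin n)) : Perm (Fin n))⁻¹ p0 =
        σ i ((g : Perm (Fin n))⁻¹ p0) := by
    intro g i
    have : ((g * s i : alternatingGroup (Fin n)) : Perm (Fin n)) = (g : Perm (Fin n)) * σ i := rfl
    rw [this, mul_inv_rev, hinv, Perm.mul_apply]
  have hAlt : ∀ (k : ℕ) (g : alternatingGroup (Fin n)) (i j : Fin 3),
      Alt s c g i j k ↔ AltQ σ c0 ((g : Perm (Fin n))⁻¹ p0) i j k := by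
    intro k
    induction k with
    | zero => intro g i j; exact Iff.rfl
    | succ k ih =>
      intro g i j
      simp only [Alt, AltQ]
      rw [ih, hstep]
      simp only [hc]
      rw [hstep]
  have hE := eulerChar_ge s c hs2 hs1 hsinj (flip 0 1 2 hxy) (flip 1 2 3 hyz) (flip 0 2 7 hxz)
  have hle := le_chi _ hgen (rotSys s c hs2 hs1 hsinj)
  have hleR : ((rotSys s c hs2 hs1 hsinj).eulerChar : ℝ) ≤
      (chi (alternatingGroup (Fin n)) : ℝ) := by exact_mod_cast hle
  refine le_trans ?_ hleR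
  refine le_trans ?_ hE
  -- counting
  have hcount : ∀ P : Fin n → Prop,
      ((univ.filter (fun g : alternatingGroup (Fin n) =>
        P ((g : Perm (Fin n))⁻¹ p0))).card : ℝ) =
      (Fintype.card (alternatingGroup (Fin n)) : ℝ) / n *
        (n - ((univ.filter (fun q => ¬ P q)).card : ℝ)) := by
    intro P
    have h3 := card_fibre (alternatingGroup (Fin n)) p0 htr P
    have h4 : (univ.filter (fun q : Fin n => P q)).card +
        (univ.filter (fun q : Fin n => ¬ P q)).card = n := by
      rw [Finset.card_filter_add_card_filter_not, Finset.card_univ, Fintype.card_fin]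
    have h5 : ((univ.filter (fun q : Fin n => P q)).card : ℝ) =
        n - ((univ.filter (fun q => ¬ P q)).card : ℝ) := by
      have : ((univ.filter (fun q : Fin n => P q)).card : ℝ) +
        ((univ.filter (fun q : Fin n => ¬ P q)).card : ℝ) = n := by exact_mod_cast h4
      linarith
    rw [← h5]
    have h6 : (n : ℝ) * ((univ.filter (fun g : alternatingGroup (Fin n) =>
        P ((g : Perm (Fin n))⁻¹ p0))).card : ℝ) =
        (Fintype.card (alternatingGroup (Fin n)) : ℝ) *
          ((univ.filter (fun q : Fin n => P q)).card : ℝ) := by exact_mod_cast h3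
    field_simp
    linarith
  have hcount' : ∀ (i j : Fin 3) (k : ℕ),
      ((univ.filter (fun g : alternatingGroup (Fin n) =>
        Alt s c g i j k ∧ Alt s c g j i k)).card : ℝ) =
      (Fintype.card (alternatingGroup (Fin n)) : ℝ) / n *
        (n - ((univ.filter (fun q => ¬ (AltQ σ c0 q i j k ∧ AltQ σ c0 q j i k))).card : ℝ)) := by
    intro i j k
    have h3 := hcount (fun q => AltQ σ c0 q i j k ∧ AltQ σ c0 q j i k)
    simp only [← hAlt] at h3
    convert h3
  rw [hcount' 0 1 4, hcount' 1 2 6, hcount' 0 2 14]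
  rw [Nat.card_eq_fintype_card]
  set M : ℝ := (Fintype.card (alternatingGroup (Fin n)) : ℝ) with hM
  have hMpos : 0 ≤ M := by positivity
  set a1 := ((univ.filter (fun q => ¬ (AltQ σ c0 q 0 1 4 ∧ AltQ σ c0 q 1 0 4))).card : ℝ)
  set a2 := ((univ.filter (fun q => ¬ (AltQ σ c0 q 1 2 6 ∧ AltQ σ c0 q 2 1 6))).card : ℝ)
  set a3 := ((univ.filter (fun q => ¬ (AltQ σ c0 q 0 2 14 ∧ AltQ σ c0 q 2 0 14))).card : ℝ)
  have hMn : 0 ≤ M / n := by positivity
  have e1 : M / n * (n - a1) / 4 + M / n * (n - a2) / 6 + M / n * (n - a3) / 14 =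
      M * (41 / 84) - M / n * (a1 / 4 + a2 / 6 + a3 / 14) := by
    field_simp
    ring
  have e2 : M / n * (a1 / 4 + a2 / 6 + a3 / 14) ≤ M / n * C := mul_le_mul_of_nonneg_left hC hMn
  have e3 : C * M / n = M / n * C := by ring
  rw [e3]
  linarith

end Points

end Pool.Agent.Helper62.Gen
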