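import Pool.Agent.Helper62.Gen.Chain
import Pool.Agent.Helper62.Gen.Points
import Pool.Agent.Helper62.Gen.PermGroup

/-!
# From a step function on `[0, n)` to the Euler characteristic of the alternating group
-/

namespace Pool.Agent.Helper62.Gen

open Equiv Finset

/-- The colours alternate along the walk of the step function. -/
def AltN (F : ℕ → ℕ → ℕ) (col : ℕ → Bool) : ℕ → ℕ → ℕ → ℕ → Prop
  | _, _, _, 0 => True
  | P, i, j, k + 1 => col (F i P) = !col P ∧ AltN F col (F i P) j i k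

section Main

variable {F : ℕ → ℕ → ℕ} {n : ℕ} (hOk : ∀ P < n, Ok1 F n P)

/-- The generators as permutations. -/
def gp (i : Fin 3) : Perm (Fin n) :=
  Function.Involutive.toPerm (fun P => ⟨F i P, (hOk P P.2).lt i i.2⟩)
    (fun P => Fin.ext ((hOk P P.2).inv i i.2))

theorem gp_val (i : Fin 3) (P : Fin n) : (gp hOk i P : ℕ) = F i P := rfl

/-- Words as permutations; the first letter acts first. -/
def wperm : List (Fin 3) → Perm (Fin n)
  | [] => 1
  | i :: w => wperm w * gp hOk i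

theorem wperm_val : ∀ (w : List (Fin 3)) (P : Fin n),
    (wperm hOk w P : ℕ) = run F (w.map Fin.val) P := by
  intro w
  induction w with
  | nil => intro P; rfl
  | cons i w ih =>
    intro P
    simp only [wperm, List.map_cons, run]
    rw [Perm.mul_apply, ih, gp_val]

theorem gp_mul_self (i : Fin 3) : gp hOk i * gp hOk i = 1 := by
  ext P
  exact (hOk P P.2).inv i i.2

theorem gp_xy : (gp hOk 1 * gp hOk 0) ^ 2 = 1 := by
  have h : (gp hOk 1 * gp hOk 0) ^ 2 = wperm hOk [0, 1, 0, 1] := by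
    simp only [wperm, one_mul, pow_succ, pow_zero, mul_assoc]
  rw [h]
  ext P
  rw [wperm_val]
  exact (hOk P P.2).xy

theorem gp_yz : (gp hOk 2 * gp hOk 1) ^ 3 = 1 := by
  have h : (gp hOk 2 * gp hOk 1) ^ 3 = wperm hOk [1, 2, 1, 2, 1, 2] := by
    simp only [wperm, one_mul, pow_succ, pow_zero, mul_assoc]
  rw [h]
  ext P
  rw [wperm_val]
  exact (hOk P P.2).yz

theorem gp_xz : (gp hOk 2 * gp hOk 0) ^ 7 = 1 := by
  have h : (gp hOk 2 * gp hOk 0) ^ 7 =
      wperm hOk [0, 2, 0, 2, 0, 2, 0, 2, 0, 2, 0, 2, 0, 2] := by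
    simp only [wperm, one_mul, pow_succ, pow_zero, mul_assoc]
  rw [h]
  ext P
  rw [wperm_val]
  exact (hOk P P.2).xz

theorem range_gp : Set.range (gp hOk) = {gp hOk 0, gp hOk 1, gp hOk 2} := by
  ext g
  simp only [Set.mem_range, Set.mem_insert_iff, Set.mem_singleton_iff]
  constructor
  · rintro ⟨i, rfl⟩
    fin_cases i
    · exact Or.inl rfl
    · exact Or.inr (Or.inl rfl)
    · exact Or.inr (Or.inr rfl)
  · rintro (rfl | rfl | rfl)
    · exact ⟨0, rfl⟩
    · exact ⟨1, rfl⟩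
    · exact ⟨2, rfl⟩

theorem wperm_mem (w : List (Fin 3)) : wperm hOk w ∈ Subgroup.closure (Set.range (gp hOk)) := by
  induction w with
  | nil => exact Subgroup.one_mem _
  | cons i w ih => exact Subgroup.mul_mem _ ih (Subgroup.subset_closure ⟨i, rfl⟩)

/-- Every point can be moved to `0`. -/
theorem exists_zero : ∀ (P : ℕ) (hP : P < n), ∃ g ∈ Subgroup.closure (Set.range (gp hOk)),
    ((g ⟨P, hP⟩ : Fin n) : ℕ) = 0 := by
  intro P
  induction P using Nat.strong_induction_on with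
  | _ P ih =>
    intro hP
    rcases (hOk P hP).down with h | ⟨i, hi, h⟩
    · exact ⟨1, Subgroup.one_mem _, h⟩
    · obtain ⟨g, hg, h2⟩ := ih (F i P) h ((hOk P hP).lt i hi)
      refine ⟨g * gp hOk ⟨i, hi⟩, Subgroup.mul_mem _ hg (Subgroup.subset_closure ⟨_, rfl⟩), ?_⟩
      exact h2

theorem transitive (a b : Fin n) : ∃ g ∈ Subgroup.closure (Set.range (gp hOk)), g a = b := by
  obtain ⟨g, hg, h1⟩ := exists_zero hOk a a.2
  obtain ⟨h, hh, h2⟩ := exists_zero hOk b b.2
  refine ⟨h⁻¹ * g, Subgroup.mul_mem _ (Subgroup.inv_mem _ hh) hg, ?_⟩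
  rw [Perm.mul_apply, Perm.inv_eq_iff_eq]
  apply Fin.ext
  exact h1.trans h2.symm

/-- An involution whose number of moved points is divisible by four is even. -/
theorem sign_eq_one (τ : Perm (Fin n)) (h2 : τ * τ = 1) (h4 : 4 ∣ τ.support.card) :
    Perm.sign τ = 1 := by
  have hrep : τ.cycleType = Multiset.replicate (Multiset.card τ.cycleType) 2 := by
    rw [Multiset.eq_replicate]
    refine ⟨rfl, fun m hm => ?_⟩
    have h5 : m ∣ orderOf τ := Perm.dvd_of_mem_cycleType hm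
    have h6 : orderOf τ ∣ 2 := orderOf_dvd_of_pow_eq_one (by rw [pow_two]; exact h2)
    have h7 := (Nat.dvd_prime Nat.prime_two).1 (h5.trans h6)
    have h8 := Perm.two_le_of_mem_cycleType hm
    omega
  have hsum : 2 * Multiset.card τ.cycleType = τ.support.card := by
    have h9 := Perm.sum_cycleType τ
    rw [hrep, Multiset.sum_replicate, smul_eq_mul] at h9
    rw [← h9]
    rw [mul_comm]
  rw [Perm.sign_of_cycleType, Perm.sum_cycleType]
  obtain ⟨m, hm⟩ := h4
  have hc : Multiset.card τ.cycleType = 2 * m := by omega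
  rw [hm, hc, pow_add, pow_mul, pow_mul]
  norm_num

theorem run_wW : (wperm hOk [0, 1, 2, 0, 2]) =
    gp hOk 2 * gp hOk 0 * gp hOk 2 * gp hOk 1 * gp hOk 0 := by
  simp only [wperm, one_mul]

theorem wpow_val (k : ℕ) (P : Fin n) :
    (((wperm hOk [0, 1, 2, 0, 2]) ^ k) P : ℕ) = (run F wW)^[k] P := by
  induction k generalizing P with
  | zero => rfl
  | succ k ih =>
    rw [pow_succ, Perm.mul_apply, ih, wperm_val, Function.iterate_succ_apply]
    rfl

theorem altQ_iff (col : ℕ → Bool) (k : ℕ) : ∀ (P : Fin n) (i j : Fin 3),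
    AltQ (gp hOk) (fun q : Fin n => col q) P i j k ↔ AltN F col P i j k := by
  induction k with
  | zero => intro P i j; exact Iff.rfl
  | succ k ih =>
    intro P i j
    simp only [AltQ, AltN]
    rw [ih]
    rfl

/-- Counting in `Fin n` and in `range n`. -/
theorem card_fin_filter (p : ℕ → Prop) [DecidablePred p] :
    (univ.filter (fun q : Fin n => p q)).card = ((range n).filter p).card := by
  rw [← Finset.card_map Fin.valEmbedding]
  congr 1
  ext a
  simp only [Finset.mem_map, Finset.mem_filter, Finset.mem_univ, true_and, Finset.mem_range,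
    Fin.valEmbedding_apply]
  constructor
  · rintro ⟨q, hq, rfl⟩; exact ⟨q.2, hq⟩
  · rintro ⟨h1, h2⟩; exact ⟨⟨a, h1⟩, h2, rfl⟩

open Classical in
include hOk in
/-- The main assembly. -/
theorem chi_of_step (col : ℕ → Bool) (S : List ℕ)
    (hper : ∀ P < n, ∃ l, 0 < l ∧ (run F wW)^[l] P = P ∧
      ((P ∈ S → l = 11) ∧ (P ∉ S → LL % l = 0)))
    (hSn : ∀ s ∈ S, s < n) (s0 : ℕ) (hs0 : s0 ∈ S)
    (hcyc : ∀ s ∈ S, ∃ k : ℕ, (run F wW)^[k] s0 = s)
    (hWS : ∀ s ∈ S, run F wW s ∈ S ∧ run F wW s ≠ s)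
    (hx : ∃ s ∈ S, F 0 s ∈ S) (hy : ∃ s ∈ S, F 1 s ∈ S)
    (gw : List (Fin 3)) (t : ℕ) (ht : t ∈ S) (ht2 : ∃ s ∈ S, run F (gw.map Fin.val) s = t)
    (ht3 : ∀ s ∈ S, run F (gw.map Fin.val) s ∈ S → run F (gw.map Fin.val) s = t)
    (hdist : ∃ q < n, F 0 q ≠ q ∧ F 1 q ≠ q ∧ F 2 q ≠ q ∧ F 0 q ≠ F 1 q ∧ F 0 q ≠ F 2 q ∧
      F 1 q ≠ F 2 q)
    (h4 : 4 ∣ ((range n).filter (fun q => F 2 q ≠ q)).card)
    (hbeta : 21 * ((range n).filter (fun P => ¬ (AltN F col P 0 1 4 ∧ AltN F col P 1 0 4))).card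
      + 14 * ((range n).filter (fun P => ¬ (AltN F col P 1 2 6 ∧ AltN F col P 2 1 6))).card
      + 6 * ((range n).filter (fun P => ¬ (AltN F col P 0 2 14 ∧ AltN F col P 2 0 14))).card
      ≤ 567) :
    -(Nat.card (alternatingGroup (Fin n)) : ℝ) / 84
      - 27 / 4 * (Nat.card (alternatingGroup (Fin n)) : ℝ) / n
      ≤ (chi (alternatingGroup (Fin n)) : ℝ) := by
  set G := Subgroup.closure (Set.range (gp hOk)) with hG
  -- the permutation `u`
  set W := wperm hOk [0, 1, 2, 0, 2] with hW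
  set u := W ^ LL with hu
  have hWG : W ∈ G := wperm_mem hOk _
  have huG : u ∈ G := G.pow_mem hWG _
  have huS : ∀ P : Fin n, (P : ℕ) ∈ S → (u P : ℕ) = run F wW P := by
    intro P hP
    rw [hu, wpow_val]
    obtain ⟨l, hl, h1, h2, _⟩ := hper P P.2
    have h3 : Function.IsPeriodicPt (run F wW) l (P : ℕ) := h1
    rw [← h3.iterate_mod_apply, h2 hP]
    have h5 : LL % 11 = 1 := by decide +kernel
    rw [h5]
    rfl
  have huN : ∀ P : Fin n, (P : ℕ) ∉ S → u P = P := by
    intro P hP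
    apply Fin.ext
    rw [hu, wpow_val]
    obtain ⟨l, hl, h1, _, h2⟩ := hper P P.2
    have h3 : Function.IsPeriodicPt (run F wW) l (P : ℕ) := h1
    rw [← h3.iterate_mod_apply, h2 hP]
    rfl
  have hmov : ∀ P : Fin n, u P ≠ P ↔ (P : ℕ) ∈ S := by
    intro P
    constructor
    · intro h
      by_contra h1
      exact h (huN P h1)
    · intro h h1
      have h2 := huS P h
      rw [h1] at h2
      exact (hWS P h).2 h2.symm
  have hupow : ∀ (k : ℕ) (P : Fin n), (P : ℕ) ∈ S →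
      (((u ^ k) P : ℕ) = (run F wW)^[k] P ∧ ((u ^ k) P : ℕ) ∈ S) := by
    intro k
    induction k with
    | zero => intro P hP; exact ⟨rfl, hP⟩
    | succ k ih =>
      intro P hP
      rw [pow_succ, Perm.mul_apply, Function.iterate_succ_apply, ← huS P hP]
      exact ih (u P) (by rw [huS P hP]; exact (hWS P hP).1)
  have hu11 : u ^ 11 = 1 := by
    ext P
    by_cases hP : (P : ℕ) ∈ S
    · rw [(hupow 11 P hP).1]
      obtain ⟨l, hl, h1, h2, _⟩ := hper P P.2
      rw [h2 hP] at h1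
      rw [h1]; rfl
    · have h1 : ∀ k : ℕ, (u ^ k) P = P := by
        intro k
        induction k with
        | zero => rfl
        | succ k ih => rw [pow_succ, Perm.mul_apply, huN P hP, ih]
      rw [h1]; rfl
  set s0' : Fin n := ⟨s0, hSn s0 hs0⟩ with hs0'
  have hcyc' : ∀ a, u a ≠ a → ∃ k : ℕ, (u ^ k) s0' = a := by
    intro a ha
    obtain ⟨k, hk⟩ := hcyc a ((hmov a).1 ha)
    refine ⟨k, Fin.ext ?_⟩
    rw [(hupow k s0' hs0).1]
    exact hk
  have hx' : ∃ a, u a ≠ a ∧ u (gp hOk 0 a) ≠ gp hOk 0 a := by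
    obtain ⟨s, hs, h⟩ := hx
    exact ⟨⟨s, hSn s hs⟩, (hmov _).2 hs, (hmov _).2 h⟩
  have hy' : ∃ a, u a ≠ a ∧ u (gp hOk 1 a) ≠ gp hOk 1 a := by
    obtain ⟨s, hs, h⟩ := hy
    exact ⟨⟨s, hSn s hs⟩, (hmov _).2 hs, (hmov _).2 h⟩
  have hw' : ∃ a, u a ≠ a ∧ u ((gp hOk 2 * gp hOk 0 * gp hOk 2 * gp hOk 1 * gp hOk 0) a) ≠
      (gp hOk 2 * gp hOk 0 * gp hOk 2 * gp hOk 1 * gp hOk 0) a := by
    refine ⟨s0', (hmov _).2 hs0, (hmov _).2 ?_⟩
    rw [← run_wW hOk, wperm_val]
    exact (hWS s0 hs0).1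
  -- evenness
  have hz : Perm.sign (gp hOk 2) = 1 := by
    apply sign_eq_one _ (gp_mul_self hOk 2)
    have h1 : (gp hOk 2).support = univ.filter (fun q : Fin n => F 2 q ≠ q) := by
      ext a
      rw [Perm.mem_support, Finset.mem_filter]
      simp only [Finset.mem_univ, true_and]
      rw [Ne, Fin.ext_iff]
      rfl
    rw [h1, card_fin_filter (fun q => F 2 q ≠ q)]
    exact h4
  have hodd : ∀ (τ : Perm (Fin n)) (m : ℕ), Odd m → τ ^ m = 1 → Perm.sign τ = 1 := by
    intro τ m hm h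
    have h1 : Perm.sign τ ^ m = 1 := by rw [← map_pow, h, map_one]
    rcases Int.units_eq_one_or (Perm.sign τ) with h2 | h2
    · exact h2
    · rw [h2, hm.neg_one_pow] at h1
      exact absurd h1 (by decide)
  have hxs : Perm.sign (gp hOk 0) = 1 := by
    have h1 := hodd _ 7 (by decide) (gp_xz hOk)
    rwa [map_mul, hz, one_mul] at h1
  have hys : Perm.sign (gp hOk 1) = 1 := by
    have h1 := hodd _ 3 (by decide) (gp_yz hOk)
    rwa [map_mul, hz, one_mul] at h1
  have hmemA : ∀ i, gp hOk i ∈ alternatingGroup (Fin n) := by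
    intro i
    rw [Perm.mem_alternatingGroup]
    fin_cases i
    · exact hxs
    · exact hys
    · exact hz
  -- the three-cycle
  set g := wperm hOk gw with hg
  have hgG : g ∈ G := wperm_mem hOk gw
  set t' : Fin n := ⟨t, hSn t ht⟩ with ht'
  have hconj : ∀ a : Fin n, (g * u * g⁻¹) a ≠ a ↔ ((g⁻¹ a : Fin n) : ℕ) ∈ S := by
    intro a
    rw [← hmov, Perm.mul_apply, Perm.mul_apply]
    constructor
    · intro h1 h2
      apply h1
      rw [h2, app_inv]
    · intro h1 h2
      apply h1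
      rw [eq_comm, Perm.inv_eq_iff_eq]
      exact h2.symm
  have hgt : (g * u * g⁻¹) t' ≠ t' := by
    rw [hconj]
    obtain ⟨s, hs, h⟩ := ht2
    have h1 : g ⟨s, hSn s hs⟩ = t' := by
      apply Fin.ext
      rw [hg, wperm_val]
      exact h
    rw [← h1, inv_app]
    exact hs
  have huniq : ∀ a, u a ≠ a → (g * u * g⁻¹) a ≠ a → a = t' := by
    intro a h1 h2
    rw [hmov] at h1
    rw [hconj] at h2
    have h3 : run F (gw.map Fin.val) ((g⁻¹ a : Fin n) : ℕ) = a := by
      rw [← wperm_val hOk, ← hg, app_inv]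
    have h4 := ht3 _ h2 (by rw [h3]; exact h1)
    apply Fin.ext
    rw [← h3, h4]
  have hcl : G = alternatingGroup (Fin n) := by
    have hr := range_gp hOk
    rw [hG, hr]
    apply closure_eq_alternatingGroup (gp hOk 0) (gp hOk 1) (gp hOk 2) u g 11 (by norm_num)
      (gp_xz hOk) (gp_mul_self hOk 0) (hmemA 0) (hmemA 1) (hmemA 2) (by rw [← hr]; exact huG)
      hu11 s0' hcyc' hx' hy' hw' (by rw [← hr]; exact transitive hOk) (by rw [← hr]; exact hgG) t'
      ((hmov _).2 ht) hgt huniq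
  -- distinctness
  obtain ⟨q, hq, d0, d1, d2, d01, d02, d12⟩ := hdist
  have hval : ∀ i : Fin 3, F i q ≠ q := by
    intro i
    fin_cases i
    · exact d0
    · exact d1
    · exact d2
  have hne1 : ∀ i, gp hOk i ≠ 1 := by
    intro i h
    have h1 : (gp hOk i ⟨q, hq⟩ : ℕ) = q := by rw [h]; rfl
    exact hval i h1
  have hinj : Function.Injective (gp hOk) := by
    intro i j h
    have h1 : F i q = F j q := by
      have h2 : (gp hOk i ⟨q, hq⟩ : ℕ) = gp hOk j ⟨q, hq⟩ := by rw [h]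
      exact h2
    fin_cases i <;> fin_cases j <;> first | rfl | skip
    · exact absurd h1 d01
    · exact absurd h1 d02
    · exact absurd h1.symm d01
    · exact absurd h1 d12
    · exact absurd h1.symm d02
    · exact absurd h1.symm d12
  refine chi_ge_of_points (gp hOk) (fun q : Fin n => col q) s0' hmemA hcl (gp_mul_self hOk) hne1
    hinj (gp_xy hOk) (gp_yz hOk) (gp_xz hOk) (by rw [← hcl]; exact transitive hOk) (27 / 4) ?_
  have hcount : ∀ (i j : Fin 3) (k : ℕ),
      (univ.filter (fun q : Fin n => ¬ (AltQ (gp hOk) (fun q : Fin n => col q) q i j k ∧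
        AltQ (gp hOk) (fun q : Fin n => col q) q j i k))).card =
      ((range n).filter (fun P => ¬ (AltN F col P i j k ∧ AltN F col P j i k))).card := by
    intro i j k
    rw [← card_fin_filter]
    congr 1
    apply Finset.filter_congr
    intro q _
    rw [altQ_iff, altQ_iff]
  rw [hcount 0 1 4, hcount 1 2 6, hcount 0 2 14]
  have hb : (21 : ℝ) * (((range n).filter (fun P => ¬ (AltN F col P ((0 : Fin 3) : ℕ)
      ((1 : Fin 3) : ℕ) 4 ∧ AltN F col P ((1 : Fin 3) : ℕ) ((0 : Fin 3) : ℕ) 4))).card : ℝ)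
      + 14 * (((range n).filter (fun P => ¬ (AltN F col P ((1 : Fin 3) : ℕ) ((2 : Fin 3) : ℕ) 6 ∧
        AltN F col P ((2 : Fin 3) : ℕ) ((1 : Fin 3) : ℕ) 6))).card : ℝ)
      + 6 * (((range n).filter (fun P => ¬ (AltN F col P ((0 : Fin 3) : ℕ) ((2 : Fin 3) : ℕ) 14 ∧
        AltN F col P ((2 : Fin 3) : ℕ) ((0 : Fin 3) : ℕ) 14))).card : ℝ) ≤ 567 := by
    exact_mod_cast hbeta
  linarith

end Main

end Pool.Agent.Helper62.Gen
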