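import Mathlib

/-!
# Chains of pieces: step function, words, local runs
-/

namespace Pool.Agent.Helper62.Gen

/-- Entry of the table `t` for point `q` and generator `g`. -/
def ent (t q g : ℕ) : ℕ := (t >>> (10 * (3 * q + g))) % 1024

/-- The generator `g` on a chain: left piece `tE` of size `nE`, `K` blocks of size `56`, right
piece `tR`. -/
def stp (nE K tE tB tR g P : ℕ) : ℕ :=
  bif Nat.blt P nE then ent tE P g
  else bif Nat.blt P (nE + 56 * K) then P - (P - nE) % 56 + ent tB ((P - nE) % 56) g - 56
  else nE + 56 * K + ent tR (P - (nE + 56 * K)) g - 56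

/-- Evaluate `n`, then pass it on (equal to `k n`). -/
def force {α : Type} (n : ℕ) (k : ℕ → α) : α := Nat.rec (k 0) (fun m _ => k (m + 1)) n

theorem force_eq {α : Type} (n : ℕ) (k : ℕ → α) : force n k = k n := by
  cases n <;> rfl

/-- Apply a word, letter by letter. -/
def run (F : ℕ → ℕ → ℕ) : List ℕ → ℕ → ℕ
  | [], q => q
  | g :: w, q => run F w (F g q)

/-- Apply a word, staying inside the window `[lo, hi)`; the value is `hi` if the window is left. -/
def orun (F : ℕ → ℕ → ℕ) (lo hi : ℕ) : List ℕ → ℕ → ℕ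
  | [], q => bif Nat.ble lo q && Nat.blt q hi then q else hi
  | g :: w, q => bif Nat.ble lo q && Nat.blt q hi then force (F g q) (orun F lo hi w) else hi

/-- Length of the cycle of the word `w` through `q0`, inside the window; `0` if not found. -/
def cyc (F : ℕ → ℕ → ℕ) (lo hi : ℕ) (w : List ℕ) (q0 : ℕ) : ℕ → ℕ → ℕ → ℕ
  | 0, _, _ => 0
  | fuel + 1, k, q =>
    force (orun F lo hi w q) fun q' =>
      bif Nat.beq q' q0 then k + 1 else cyc F lo hi w q0 fuel (k + 1) q'

/-- Check a Boolean predicate on `[a, a + n)`. -/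
def allB (p : ℕ → Bool) (a : ℕ) : ℕ → Bool
  | 0 => true
  | n + 1 => p (a + n) && allB p a n

end Pool.Agent.Helper62.Gen
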